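import Mathlib

/-!
Words for symmetric lexicographic subshifts: signed order, matches with the two extreme sequences,
the language, and the state of a word.
-/

namespace Pool.Agent.Lib.MP_0ad9bc_an

variable {M : ℕ}

/-- The order on letters, reversed when the sign is `false`. -/
def ole (ε : Bool) (x y : Fin (M + 1)) : Prop := if ε then x ≤ y else y ≤ x

/-- The strict order on letters, reversed when the sign is `false`. -/
def olt (ε : Bool) (x y : Fin (M + 1)) : Prop := if ε then x < y else y < x

lemma ole_refl (ε : Bool) (x : Fin (M + 1)) : ole ε x x := by cases ε <;> simp [ole]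

lemma ole_trans {ε : Bool} {x y z : Fin (M + 1)} (h : ole ε x y) (h' : ole ε y z) : ole ε x z := by
  cases ε
  · simp only [ole, Bool.false_eq_true, if_false] at *
    exact le_trans h' h
  · simp only [ole, if_true] at *
    exact le_trans h h'

lemma ole_total (ε : Bool) (x y : Fin (M + 1)) : ole ε x y ∨ ole ε y x := by
  cases ε
  · simpa [ole] using le_total y x
  · simpa [ole] using le_total x y

lemma ole_antisymm {ε : Bool} {x y : Fin (M + 1)} (h : ole ε x y) (h' : ole ε y x) : x = y := by
  cases ε
  · simp only [ole, Bool.false_eq_true, if_false] at *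
    exact le_antisymm h' h
  · simp only [ole, if_true] at *
    exact le_antisymm h h'

lemma olt_iff {ε : Bool} {x y : Fin (M + 1)} : olt ε x y ↔ ole ε x y ∧ x ≠ y := by
  cases ε
  · simp only [ole, olt, Bool.false_eq_true, if_false]
    rw [lt_iff_le_and_ne]
    exact and_congr_right fun _ => ⟨fun h => h.symm, fun h => h.symm⟩
  · simp only [ole, olt, if_true]
    exact lt_iff_le_and_ne

lemma ole_not {ε : Bool} {x y : Fin (M + 1)} : ole (!ε) x y ↔ ole ε y x := by
  cases ε <;> simp [ole]

lemma olt_not {ε : Bool} {x y : Fin (M + 1)} : olt (!ε) x y ↔ olt ε y x := by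
  cases ε <;> simp [olt]

lemma olt_le {ε : Bool} {x y : Fin (M + 1)} (h : olt ε x y) : ole ε x y := (olt_iff.mp h).1

lemma olt_ne {ε : Bool} {x y : Fin (M + 1)} (h : olt ε x y) : x ≠ y := (olt_iff.mp h).2

lemma olt_of {ε : Bool} {x y : Fin (M + 1)} (h : ole ε x y) (h' : x ≠ y) : olt ε x y :=
  olt_iff.mpr ⟨h, h'⟩

lemma not_olt_of_ole {ε : Bool} {x y : Fin (M + 1)} (h : ole ε x y) : ¬ olt ε y x := fun h' =>
  olt_ne h' (ole_antisymm (olt_le h') h)

lemma olt_of_olt_ole {ε : Bool} {x y z : Fin (M + 1)} (h : olt ε x y) (h' : ole ε y z) :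
    olt ε x z := by
  refine olt_of (ole_trans (olt_le h) h') ?_
  rintro rfl
  exact not_olt_of_ole h' h

lemma olt_of_ole_olt {ε : Bool} {x y z : Fin (M + 1)} (h : ole ε x y) (h' : olt ε y z) :
    olt ε x z := by
  refine olt_of (ole_trans h (olt_le h')) ?_
  rintro rfl
  exact not_olt_of_ole h h'

lemma ole_rev {ε : Bool} {x y : Fin (M + 1)} : ole (!ε) x.rev y.rev ↔ ole ε x y := by
  cases ε <;> simp [ole]

variable (β : Bool → ℕ → Fin (M + 1))

/-- The prefix of length `r` of the sequence `β ε`. -/
def pre (ε : Bool) (r : ℕ) : List (Fin (M + 1)) := (List.range r).map (β ε)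

@[simp] lemma length_pre (ε : Bool) (r : ℕ) : (pre β ε r).length = r := by simp [pre]

@[simp] lemma pre_zero (ε : Bool) : pre β ε 0 = [] := by simp [pre]

lemma pre_succ (ε : Bool) (r : ℕ) : pre β ε (r + 1) = pre β ε r ++ [β ε r] := by
  simp [pre, List.range_succ]

lemma pre_prefix (ε : Bool) {r s : ℕ} (h : r ≤ s) : pre β ε r <+: pre β ε s := by
  induction s with
  | zero => simp at h; subst h; exact List.prefix_rfl
  | succ s ih =>
    rcases Nat.lt_or_ge r (s + 1) with h' | h'
    · exact (ih (by omega)).trans (by rw [pre_succ]; exact List.prefix_append _ _)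
    · have : r = s + 1 := by omega
      subst this; exact List.prefix_rfl

lemma pre_take (ε : Bool) {r s : ℕ} (h : r ≤ s) : (pre β ε s).take r = pre β ε r := by
  have := (List.prefix_iff_eq_take.mp (pre_prefix β ε h))
  rw [length_pre] at this
  exact this.symm

/-- A prefix of `pre β ε s` is of the form `pre β ε r`. -/
lemma eq_pre_of_append {ε : Bool} {s : ℕ} {t v : List (Fin (M + 1))}
    (h : t ++ v = pre β ε s) : t = pre β ε (s - v.length) ∧ v.length ≤ s := by
  have hl : t.length + v.length = s := by
    have := congrArg List.length h; simpa using this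
  have h1 : t <+: pre β ε s := ⟨v, h⟩
  have h2 := List.prefix_iff_eq_take.mp h1
  rw [pre_take β ε (by omega)] at h2
  refine ⟨?_, by omega⟩
  have : s - v.length = t.length := by omega
  rw [this]; exact h2

/-- The language of words all of whose factors lie between the two extreme sequences. -/
def Lang (u : List (Fin (M + 1))) : Prop :=
  ∀ v c, v ++ [c] <+: u → ∀ ε r, pre β ε r <:+ v → ole ε c (β ε r)

lemma Lang_nil : Lang β [] := by
  intro v c h
  simp at h

lemma Lang_concat {u : List (Fin (M + 1))} {c : Fin (M + 1)} :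
    Lang β (u ++ [c]) ↔ Lang β u ∧ ∀ ε r, pre β ε r <:+ u → ole ε c (β ε r) := by
  constructor
  · intro h
    refine ⟨fun v d hv => h v d (hv.trans (List.prefix_append _ _)), fun ε r hr => h u c List.prefix_rfl ε r hr⟩
  · rintro ⟨h1, h2⟩ v d hv ε r hr
    rw [List.prefix_concat_iff] at hv
    rcases hv with hv | hv
    · obtain ⟨rfl, hcd⟩ := List.append_inj' hv rfl
      simp at hcd
      subst hcd
      exact h2 ε r hr
    · exact h1 v d hv ε r hr

lemma Lang_prefix {u v : List (Fin (M + 1))} (h : Lang β (u ++ v)) : Lang β u :=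
  fun w c hw => h w c (hw.trans (List.prefix_append _ _))

lemma Lang_of_prefix {u v : List (Fin (M + 1))} (h : Lang β v) (huv : u <+: v) : Lang β u :=
  fun w c hw => h w c (hw.trans huv)

lemma Lang_suffix {u v : List (Fin (M + 1))} (h : Lang β (u ++ v)) : Lang β v := by
  induction v using List.reverseRecOn with
  | nil => exact Lang_nil β
  | append_singleton v c ih =>
    rw [← List.append_assoc, Lang_concat] at h
    rw [Lang_concat]
    refine ⟨ih h.1, fun ε r hr => h.2 ε r (hr.trans (List.suffix_append _ _))⟩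

lemma Lang_of_suffix {u v : List (Fin (M + 1))} (h : Lang β v) (huv : u <:+ v) : Lang β u := by
  obtain ⟨t, rfl⟩ := huv
  exact Lang_suffix β h

lemma Lang_of_infix {u v : List (Fin (M + 1))} (h : Lang β v) (huv : u <:+: v) : Lang β u := by
  obtain ⟨s, t, rfl⟩ := huv
  exact Lang_suffix β (Lang_prefix β h)

lemma pre_suffix_concat {ε : Bool} {r : ℕ} {u : List (Fin (M + 1))} {c : Fin (M + 1)} :
    pre β ε (r + 1) <:+ u ++ [c] ↔ pre β ε r <:+ u ∧ c = β ε r := by
  rw [pre_succ]
  constructor
  · rintro ⟨t, ht⟩
    rw [← List.append_assoc] at ht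
    obtain ⟨h1, h2⟩ := List.append_inj' ht rfl
    refine ⟨⟨t, h1⟩, ?_⟩
    simp at h2; exact h2.symm
  · rintro ⟨⟨t, ht⟩, rfl⟩
    exact ⟨t, by rw [← List.append_assoc, ht]⟩

/-- Length of the longest suffix of `u` that is a prefix of one of the two extreme sequences. -/
noncomputable def idx (u : List (Fin (M + 1))) : ℕ :=
  @Nat.findGreatest (fun r => ∃ ε, pre β ε r <:+ u) (Classical.decPred _) u.length

lemma idx_le (u : List (Fin (M + 1))) : idx β u ≤ u.length :=
  @Nat.findGreatest_le _ (Classical.decPred _) _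

lemma idx_spec (u : List (Fin (M + 1))) : ∃ ε, pre β ε (idx β u) <:+ u :=
  @Nat.findGreatest_spec 0 (fun r => ∃ ε, pre β ε r <:+ u) (Classical.decPred _) u.length
    (Nat.zero_le _) ⟨true, by simp⟩

lemma le_idx {u : List (Fin (M + 1))} {ε : Bool} {r : ℕ} (h : pre β ε r <:+ u) : r ≤ idx β u := by
  have hl := h.length_le
  rw [length_pre] at hl
  exact @Nat.le_findGreatest r (fun r => ∃ ε, pre β ε r <:+ u) (Classical.decPred _) u.length hl ⟨ε, h⟩

/-- The state of a word: its longest suffix that is a prefix of an extreme sequence. -/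
noncomputable def st (u : List (Fin (M + 1))) : List (Fin (M + 1)) :=
  u.drop (u.length - idx β u)

lemma st_suffix (u : List (Fin (M + 1))) : st β u <:+ u := List.drop_suffix _ _

lemma length_st (u : List (Fin (M + 1))) : (st β u).length = idx β u := by
  have := idx_le β u
  simp [st]; omega

lemma st_eq_of_suffix {u s : List (Fin (M + 1))} (h : s <:+ u) (hl : s.length = idx β u) :
    st β u = s := by
  rw [List.suffix_iff_eq_drop] at h
  rw [st, ← hl]; exact h.symm

lemma st_eq_pre {u : List (Fin (M + 1))} : ∃ ε, st β u = pre β ε (idx β u) := by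
  obtain ⟨ε, h⟩ := idx_spec β u
  exact ⟨ε, st_eq_of_suffix β h (by simp)⟩

/-- Matches of `u ++ v` are already matches of `st u ++ v`. -/
lemma match_transfer {u v : List (Fin (M + 1))} {ε : Bool} {r : ℕ}
    (h : pre β ε r <:+ u ++ v) : pre β ε r <:+ st β u ++ v := by
  rcases Nat.lt_or_ge v.length r with hr | hr
  · obtain ⟨t, ht⟩ := h
    have hs : v <:+ pre β ε r := by
      apply List.suffix_of_suffix_length_le (l₃ := u ++ v) (List.suffix_append _ _) ⟨t, ht⟩
      simp; omega
    obtain ⟨t', ht'⟩ := hs
    obtain ⟨h1, h2⟩ := eq_pre_of_append β ht'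
    rw [← ht', ← List.append_assoc] at ht
    have h3 : t ++ t' = u := List.append_cancel_right ht
    have h4 : t' <:+ u := ⟨t, h3⟩
    have h5 : pre β ε (r - v.length) <:+ u := by rw [← h1]; exact h4
    have h6 := le_idx β h5
    have h7 : t' <:+ st β u := by
      apply List.suffix_of_suffix_length_le h4 (st_suffix β u)
      rw [length_st]
      have : t'.length = r - v.length := by rw [h1]; simp
      omega
    rw [← ht']
    obtain ⟨a, ha⟩ := h7
    exact ⟨a, by rw [← List.append_assoc, ha]⟩
  · have : pre β ε r <:+ v := by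
      apply List.suffix_of_suffix_length_le h (List.suffix_append _ _)
      simpa using hr
    exact this.trans (List.suffix_append _ _)

lemma st_append_suffix (u v : List (Fin (M + 1))) : st β u ++ v <:+ u ++ v := by
  obtain ⟨a, ha⟩ := st_suffix β u
  exact ⟨a, by rw [← List.append_assoc, ha]⟩

lemma idx_append (u v : List (Fin (M + 1))) : idx β (u ++ v) = idx β (st β u ++ v) := by
  apply le_antisymm
  · obtain ⟨ε, h⟩ := idx_spec β (u ++ v)
    exact le_idx β (match_transfer β h)
  · obtain ⟨ε, h⟩ := idx_spec β (st β u ++ v)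
    exact le_idx β (h.trans (st_append_suffix β u v))

lemma st_append (u v : List (Fin (M + 1))) : st β (u ++ v) = st β (st β u ++ v) := by
  apply st_eq_of_suffix
  · exact (st_suffix β _).trans (st_append_suffix β u v)
  · rw [length_st]; exact (idx_append β u v).symm

lemma st_congr {u u' : List (Fin (M + 1))} (h : st β u = st β u') (v : List (Fin (M + 1))) :
    st β (u ++ v) = st β (u' ++ v) := by
  rw [st_append, h, ← st_append]

lemma Lang_of_st {u v : List (Fin (M + 1))} (hu : Lang β u) (h : Lang β (st β u ++ v)) :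
    Lang β (u ++ v) := by
  induction v using List.reverseRecOn with
  | nil => simpa using hu
  | append_singleton v c ih =>
    rw [← List.append_assoc, Lang_concat] at h ⊢
    exact ⟨ih h.1, fun ε r hr => h.2 ε r (match_transfer β hr)⟩

lemma Lang_st {u v : List (Fin (M + 1))} (h : Lang β (u ++ v)) : Lang β (st β u ++ v) :=
  Lang_of_suffix β h (st_append_suffix β u v)

lemma Lang_congr {u u' v : List (Fin (M + 1))} (hu' : Lang β u') (h : st β u = st β u')
    (hv : Lang β (u ++ v)) : Lang β (u' ++ v) := by
  apply Lang_of_st β hu'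
  rw [← h]
  exact Lang_st β hv

lemma idx_pre (ε : Bool) (k : ℕ) : idx β (pre β ε k) = k := by
  apply le_antisymm
  · simpa using idx_le β (pre β ε k)
  · exact le_idx β List.suffix_rfl

lemma st_pre (ε : Bool) (k : ℕ) : st β (pre β ε k) = pre β ε k := by
  apply st_eq_of_suffix β List.suffix_rfl
  rw [idx_pre]; simp

lemma idx_concat_le (u : List (Fin (M + 1))) (c : Fin (M + 1)) : idx β (u ++ [c]) ≤ idx β u + 1 := by
  obtain ⟨ε, h⟩ := idx_spec β (u ++ [c])
  rcases Nat.eq_zero_or_pos (idx β (u ++ [c])) with h0 | h0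
  · omega
  · obtain ⟨r, hr⟩ := Nat.exists_eq_succ_of_ne_zero h0.ne'
    rw [hr] at h ⊢
    have := le_idx β ((pre_suffix_concat β).mp h).1
    omega

end Pool.Agent.Lib.MP_0ad9bc_an
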