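import Mathlib
import Pool.Agent.Lib.MP_0ad9bc_an.Part1

/-!
Order facts, cuts, and the periodicity of words avoiding long matches.
-/

namespace Pool.Agent.Lib.MP_0ad9bc_an

variable {M : ℕ} (β : Bool → ℕ → Fin (M + 1))

/-- Standing hypotheses on the pair of extreme sequences. -/
structure Good : Prop where
  rev : ∀ ε n, β (!ε) n = (β ε n).rev
  lang : ∀ ε n, Lang β (pre β ε n)
  lt : ∀ ε, olt ε (β (!ε) 0) (β ε 0)

variable {β}

lemma Good.letter_le (H : Good β) {ε ε' : Bool} {r k : ℕ} (h : pre β ε' r <:+ pre β ε k) :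
    ole ε' (β ε k) (β ε' r) := by
  have := H.lang ε (k + 1)
  rw [pre_succ, Lang_concat] at this
  exact this.2 ε' r h

/-- Two prefixes of positive length of the two different extreme sequences are different. -/
lemma Good.pre_ne (H : Good β) {ε : Bool} {k : ℕ} (hk : 0 < k) : pre β (!ε) k ≠ pre β ε k := by
  intro h
  have h1 := congrArg (fun l => l.take 1) h
  simp only [pre_take β _ (show 1 ≤ k by omega)] at h1
  simp [pre, List.range_succ] at h1
  exact olt_ne (H.lt ε) h1

lemma Good.match_lt (H : Good β) {ε : Bool} {r k : ℕ} (hk : 0 < k) (h : pre β (!ε) r <:+ pre β ε k) :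
    r < k := by
  have hl := h.length_le
  simp at hl
  rcases Nat.lt_or_ge r k with h' | h'
  · exact h'
  · exfalso
    have : r = k := by omega
    subst this
    exact H.pre_ne hk (h.eq_of_length (by simp))

/-- If the extreme sequence is left at `c`, then `c` is strictly on the inner side and no match of the
same sign survives. -/
lemma Good.leave (H : Good β) {ε : Bool} {k : ℕ} {c : Fin (M + 1)}
    (hL : Lang β (pre β ε k ++ [c])) (hc : c ≠ β ε k) :
    olt ε c (β ε k) ∧ ∀ r, ¬ pre β ε (r + 1) <:+ pre β ε k ++ [c] := by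
  rw [Lang_concat] at hL
  have h1 : olt ε c (β ε k) := olt_of (hL.2 ε k List.suffix_rfl) hc
  refine ⟨h1, fun r hr => ?_⟩
  rw [pre_suffix_concat] at hr
  have h2 := H.letter_le hr.1
  rw [hr.2] at h1
  exact not_olt_of_ole h2 h1

lemma Good.leave_match (H : Good β) {ε : Bool} {k m : ℕ} {c : Fin (M + 1)}
    (hL : Lang β (pre β ε k ++ [c])) (hc : c ≠ β ε k) (hm : 0 < m)
    (hi : m ≤ idx β (pre β ε k ++ [c])) :
    ∃ r, m ≤ r + 1 ∧ idx β (pre β ε k ++ [c]) = r + 1 ∧ pre β (!ε) r <:+ pre β ε k ∧ c = β (!ε) r := by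
  obtain ⟨ε', h⟩ := idx_spec β (pre β ε k ++ [c])
  obtain ⟨r, hr⟩ := Nat.exists_eq_succ_of_ne_zero (show idx β (pre β ε k ++ [c]) ≠ 0 by omega)
  rw [Nat.succ_eq_add_one] at hr
  rw [hr] at h
  have hε : ε' = !ε := by
    by_contra hne
    have : ε' = ε := by cases ε <;> cases ε' <;> simp_all
    subst this
    exact (H.leave hL hc).2 r h
  subst hε
  rw [pre_suffix_concat] at h
  exact ⟨r, by omega, hr, h.1, h.2⟩

/-- Letters between the longest opposite match and the current letter are allowed. -/
lemma Good.allowed (H : Good β) {ε : Bool} {k j : ℕ} {c : Fin (M + 1)}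
    (hj : pre β (!ε) j <:+ pre β ε k) (hmax : ∀ r, pre β (!ε) r <:+ pre β ε k → r ≤ j)
    (h1 : ole ε (β (!ε) j) c) (h2 : ole ε c (β ε k)) : Lang β (pre β ε k ++ [c]) := by
  rw [Lang_concat]
  refine ⟨H.lang ε k, fun ε' r hr => ?_⟩
  by_cases hε : ε' = ε
  · subst hε
    exact ole_trans h2 (H.letter_le hr)
  · have : ε' = !ε := by cases ε <;> cases ε' <;> simp_all
    subst this
    have hrj := hmax r hr
    have hs : pre β (!ε) r <:+ pre β (!ε) j :=
      List.suffix_of_suffix_length_le hr hj (by simpa using hrj)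
    have h3 := H.letter_le hs
    exact ole_trans (ole_not.mpr h1) h3

variable (β)

/-- `m` is a cut: once the state has length at least `m`, this persists. -/
def Cut (m : ℕ) : Prop :=
  ∀ ε k c, m ≤ k → Lang β (pre β ε k ++ [c]) → m ≤ idx β (pre β ε k ++ [c])

lemma Cut_zero : Cut β 0 := fun _ _ _ _ _ => Nat.zero_le _

variable {β}

lemma Cut.persist {m : ℕ} (hm : Cut β m) {u v : List (Fin (M + 1))} (hL : Lang β (u ++ v))
    (hu : m ≤ idx β u) : m ≤ idx β (u ++ v) := by
  induction v using List.reverseRecOn with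
  | nil => simpa using hu
  | append_singleton v c ih =>
    rw [← List.append_assoc] at hL ⊢
    have h1 := ih (Lang_prefix β hL)
    have hL' := Lang_st β hL
    obtain ⟨ε, hε⟩ := st_eq_pre β (u := u ++ v)
    rw [hε] at hL'
    have h2 := hm ε _ c h1 hL'
    rwa [idx_append, hε]

/-- Words of the language without a long match. -/
def Low (β : Bool → ℕ → Fin (M + 1)) (m : ℕ) (y : List (Fin (M + 1))) : Prop :=
  Lang β y ∧ ∀ ε, ¬ pre β ε m <:+: y

lemma Low.of_infix {m : ℕ} {y z : List (Fin (M + 1))} (h : Low β m y) (hz : z <:+: y) : Low β m z :=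
  ⟨Lang_of_infix β h.1 hz, fun ε he => h.2 ε (he.trans hz)⟩

lemma Low.lt {m r : ℕ} {y t : List (Fin (M + 1))} {ε : Bool} (h : Low β m y) (ht : t <:+: y)
    (hr : pre β ε r <:+ t) : r < m := by
  by_contra hge
  push Not at hge
  apply h.2 ε
  exact (pre_prefix β ε hge).isInfix.trans (hr.isInfix.trans ht)

/-- Transitivity of the language. -/
def Trans (β : Bool → ℕ → Fin (M + 1)) : Prop :=
  ∀ u w, Lang β u → Lang β w → ∃ v, Lang β (u ++ v ++ w)

/-- With a cut and transitivity, a low word is a proper suffix of some prefix of an extreme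
sequence. -/
lemma exists_rep (H : Good β) (hT : Trans β) {m : ℕ} (hm : Cut β m) {y : List (Fin (M + 1))}
    (hy : Lang β y) (hlow : Low β m y ∨ y.length < m) :
    ∃ ε l, y.length < l ∧ y <:+ pre β ε l := by
  obtain ⟨v, hv⟩ := hT (pre β true m) y (H.lang true m) hy
  have h1 : m ≤ idx β (pre β true m ++ v ++ y) := by
    rw [List.append_assoc] at hv ⊢
    exact hm.persist hv (by rw [idx_pre])
  obtain ⟨ε, hε⟩ := idx_spec β (pre β true m ++ v ++ y)
  set l := idx β (pre β true m ++ v ++ y) with hl
  have h2 : y.length < l := by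
    rcases hlow with hlow | hlow
    · by_contra hge
      push Not at hge
      have h3 : pre β ε l <:+ y :=
        List.suffix_of_suffix_length_le hε (List.suffix_append _ _) (by simpa using hge)
      have := hlow.lt List.infix_rfl h3
      omega
    · omega
  exact ⟨ε, l, h2, List.suffix_of_suffix_length_le (List.suffix_append _ _) hε (by simp; omega)⟩

end Pool.Agent.Lib.MP_0ad9bc_an
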