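import Mathlib
import Pool.Agent.Lib.MP_0ad9bc_an.Part2

/-!
Words avoiding a cut match are eventually periodic.
-/

namespace Pool.Agent.Lib.MP_0ad9bc_an

variable {M : ℕ} {β : Bool → ℕ → Fin (M + 1)}

lemma exists_max_match (β : Bool → ℕ → Fin (M + 1)) (ε : Bool) (u : List (Fin (M + 1))) :
    ∃ j, pre β ε j <:+ u ∧ ∀ r, pre β ε r <:+ u → r ≤ j := by
  classical
  refine ⟨Nat.findGreatest (fun r => pre β ε r <:+ u) u.length, ?_, fun r hr => ?_⟩
  · exact Nat.findGreatest_spec (P := fun r => pre β ε r <:+ u) (Nat.zero_le _) (by simp)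
  · have hl := hr.length_le
    rw [length_pre] at hl
    exact Nat.le_findGreatest hl hr

/-- `Y` is a low word, represented in a leftmost way on one of the extreme sequences. -/
structure MinRep (β : Bool → ℕ → Fin (M + 1)) (m : ℕ) (Y : List (Fin (M + 1))) (ε : Bool) (i : ℕ) :
    Prop where
  low : Low β m Y
  pos : 1 ≤ i
  rep : Y <:+ pre β ε (i + Y.length)
  min : ∀ ε' l', Y.length < l' → Y <:+ pre β ε' l' → i + Y.length ≤ l'

lemma exists_minRep (H : Good β) (hT : Trans β) {m : ℕ} (hm : Cut β m)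
    {Y : List (Fin (M + 1))} (hY : Low β m Y) : ∃ ε i, MinRep β m Y ε i := by
  classical
  have hex : ∃ l, ∃ ε, Y.length < l ∧ Y <:+ pre β ε l := by
    obtain ⟨ε, l, h⟩ := exists_rep H hT hm hY.1 (Or.inl hY)
    exact ⟨l, ε, h⟩
  obtain ⟨ε, h1, h2⟩ := Nat.find_spec hex
  refine ⟨ε, Nat.find hex - Y.length, hY, by omega, ?_, ?_⟩
  · have : Nat.find hex - Y.length + Y.length = Nat.find hex := by omega
    rw [this]; exact h2
  · intro ε' l' h3 h4
    have : Nat.find hex ≤ l' := Nat.find_min' hex ⟨ε', h3, h4⟩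
    omega

lemma MinRep.take_suffix {m : ℕ} {Y : List (Fin (M + 1))} {ε : Bool} {i : ℕ}
    (R : MinRep β m Y ε i) {t : ℕ} (ht : t ≤ Y.length) : Y.take t <:+ pre β ε (i + t) := by
  obtain ⟨h, hh⟩ := R.rep
  have hl : h.length = i := by
    have := congrArg List.length hh
    simp at this; omega
  refine ⟨h, ?_⟩
  have h1 : (pre β ε (i + Y.length)).take (i + t) = pre β ε (i + t) := pre_take β ε (by omega)
  rw [← h1, ← hh, List.take_append, hl]
  simp
  omega

lemma MinRep.getElem {m : ℕ} {Y : List (Fin (M + 1))} {ε : Bool} {i : ℕ}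
    (R : MinRep β m Y ε i) {t : ℕ} (ht : t < Y.length) : Y[t]? = some (β ε (i + t)) := by
  obtain ⟨h, hh⟩ := R.rep
  have hl : h.length = i := by
    have := congrArg List.length hh
    simp at this; omega
  have h1 : (pre β ε (i + Y.length))[i + t]? = some (β ε (i + t)) := by
    simp [pre, ht]
  rw [← hh, List.getElem?_append_right (by omega)] at h1
  rw [← h1]
  congr 1
  omega

/-- A match inside a low word is short. -/
lemma MinRep.short {m : ℕ} {Y : List (Fin (M + 1))} {ε ε' : Bool} {i : ℕ}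
    (R : MinRep β m Y ε i) {t r : ℕ} (ht : t ≤ Y.length) (hr : r ≤ t)
    (h : pre β ε' r <:+ pre β ε (i + t)) : r < m := by
  apply R.low.lt (t := Y.take t) (List.take_prefix _ _).isInfix
  apply List.suffix_of_suffix_length_le h (R.take_suffix ht)
  simp; omega

lemma pre_back {ε ε' : Bool} {a b x : ℕ} (h : pre β ε' (a + x) <:+ pre β ε (b + x)) :
    pre β ε' a <:+ pre β ε b := by
  induction x with
  | zero => simpa using h
  | succ x ih =>
    rw [← Nat.add_assoc, ← Nat.add_assoc, pre_succ β ε, pre_suffix_concat] at h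
    exact ih h.1

lemma MinRep.ext {m : ℕ} {Y : List (Fin (M + 1))} {ε ε' : Bool} {i : ℕ}
    (R : MinRep β m Y ε i) {j t : ℕ} (hj : pre β ε' j <:+ pre β ε (i + t)) (ht : t ≤ Y.length)
    (htj : t < j) (hji : j < i + t) :
    ∃ e, t + e < Y.length ∧ pre β ε' (j + e) <:+ pre β ε (i + t + e) ∧
      β ε (i + t + e) ≠ β ε' (j + e) := by
  by_contra hcon
  push Not at hcon
  have key : ∀ e, t + e ≤ Y.length → pre β ε' (j + e) <:+ pre β ε (i + t + e) := by
    intro e
    induction e with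
    | zero => intro _; simpa using hj
    | succ e ih =>
      intro he
      have h1 := ih (by omega)
      have h2 := hcon e (by omega) h1
      rw [← Nat.add_assoc, ← Nat.add_assoc, pre_succ β ε, pre_suffix_concat]
      exact ⟨h1, h2⟩
  have h1 := key (Y.length - t) (by omega)
  have e1 : i + t + (Y.length - t) = i + Y.length := by omega
  rw [e1] at h1
  have h2 : Y <:+ pre β ε' (j + (Y.length - t)) :=
    List.suffix_of_suffix_length_le R.rep h1 (by simp; omega)
  have h3 := R.min ε' _ (by omega) h2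
  omega

lemma concat_suffix {u v : List (Fin (M + 1))} (h : u <:+ v) (c : Fin (M + 1)) :
    u ++ [c] <:+ v ++ [c] := by
  obtain ⟨t, rfl⟩ := h
  exact ⟨t, by simp⟩

lemma MinRep.inner (H : Good β) {m : ℕ} (hm : Cut β m) (hm0 : 0 < m)
    {Y : List (Fin (M + 1))} {ε : Bool} {i : ℕ}
    (R : MinRep β m Y ε i) {t j : ℕ} (hmt : m ≤ t) (ht : t < Y.length)
    (hj' : pre β (!ε) j <:+ pre β ε (i + t)) : j ≤ t := by
  obtain ⟨J, hJ, hJmax⟩ := exists_max_match β (!ε) (pre β ε (i + t))
  suffices hJt : J ≤ t from (hJmax j hj').trans hJt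
  by_contra hcon
  push Not at hcon
  have hJi : J < i + t := H.match_lt (by omega) hJ
  obtain ⟨e, he1, he2, he3⟩ := R.ext hJ ht.le hcon hJi
  set c := β ε (i + t + e) with hc
  have hLbig : Lang β (pre β ε (i + t + e) ++ [c]) := by
    rw [hc, ← pre_succ]; exact H.lang ε _
  have hL : Lang β (pre β (!ε) (J + e) ++ [c]) := Lang_of_suffix β hLbig (concat_suffix he2 c)
  have hcut := hm (!ε) (J + e) c (by omega) hL
  obtain ⟨r, hr1, -, hr2, hr3⟩ := H.leave_match hL he3 hm0 hcut
  rw [Bool.not_not] at hr2 hr3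
  have hlt := (H.leave hL he3).1
  have hrJ : r < J + e := by
    have := H.match_lt (ε := !ε) (k := J + e) (r := r) (by omega) (by rw [Bool.not_not]; exact hr2)
    exact this
  have hr4 : pre β ε (r + 1) <:+ pre β ε (i + (t + e + 1)) := by
    have e1 : i + (t + e + 1) = i + t + e + 1 := by omega
    rw [e1, pre_succ β ε (i + t + e), pre_suffix_concat]
    exact ⟨hr2.trans he2, hr3⟩
  have hr5 : t + e + 1 < r + 1 := by
    by_contra hcon2
    push Not at hcon2
    have := R.short (t := t + e + 1) (by omega) hcon2 hr4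
    omega
  obtain ⟨e', f1, f2, f3⟩ := R.ext hr4 (by omega) hr5 (by omega)
  set c' := β ε (i + (t + e + 1) + e') with hc'
  have hLbig' : Lang β (pre β ε (i + (t + e + 1) + e') ++ [c']) := by
    rw [hc', ← pre_succ]; exact H.lang ε _
  have hL' : Lang β (pre β ε (r + 1 + e') ++ [c']) := Lang_of_suffix β hLbig' (concat_suffix f2 c')
  have hcut' := hm ε (r + 1 + e') c' (by omega) hL'
  obtain ⟨r', hr1', -, hr2', hr3'⟩ := H.leave_match hL' f3 hm0 hcut'
  have hr4' : pre β (!ε) (r' + 1) <:+ pre β ε (i + (t + e + 1 + e' + 1)) := by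
    have e1 : i + (t + e + 1 + e' + 1) = i + (t + e + 1) + e' + 1 := by omega
    rw [e1, pre_succ β ε (i + (t + e + 1) + e'), pre_suffix_concat]
    exact ⟨hr2'.trans f2, hr3'⟩
  have hr5' : t + e + 1 + e' + 1 < r' + 1 := by
    by_contra hcon2
    push Not at hcon2
    have := R.short (t := t + e + 1 + e' + 1) (by omega) hcon2 hr4'
    omega
  -- go back to time `t + e + 1`
  have hb : pre β (!ε) (r' - e') <:+ pre β ε (i + t + e + 1) := by
    apply pre_back (x := e')
    have e1 : r' - e' + e' = r' := by omega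
    have e2 : i + t + e + 1 + e' = i + (t + e + 1) + e' := by omega
    rw [e1, e2]
    exact hr2'.trans f2
  obtain ⟨p, hp⟩ : ∃ p, r' - e' = p + 1 := ⟨r' - e' - 1, by omega⟩
  rw [hp, pre_succ β ε (i + t + e), pre_suffix_concat] at hb
  obtain ⟨hb1, hb2⟩ := hb
  rcases Nat.lt_or_ge (J + e) p with hpq | hpq
  · have hb3 : pre β (!ε) (p - e) <:+ pre β ε (i + t) := by
      apply pre_back (x := e)
      have e1 : p - e + e = p := by omega
      rw [e1]; exact hb1
    have := hJmax _ hb3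
    omega
  · have hs : pre β (!ε) p <:+ pre β (!ε) (J + e) :=
      List.suffix_of_suffix_length_le hb1 he2 (by simpa using hpq)
    have h1 := H.letter_le hs
    rw [← hb2] at h1
    exact not_olt_of_ole h1 hlt

/-- The step of the maximal opposite match along a low word. -/
lemma MinRep.step (H : Good β) {m : ℕ} (hm : Cut β m) (hm0 : 0 < m)
    {Y : List (Fin (M + 1))} {ε : Bool} {i : ℕ}
    (R : MinRep β m Y ε i) {t j : ℕ} (hmt : m ≤ t) (ht : t < Y.length)
    (hj : pre β (!ε) j <:+ pre β ε (i + t)) (hjmax : ∀ r, pre β (!ε) r <:+ pre β ε (i + t) → r ≤ j) :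
    (j + 1 < m ∧ β ε (i + t) = β (!ε) j ∧ pre β (!ε) (j + 1) <:+ pre β ε (i + (t + 1)) ∧
      ∀ r, pre β (!ε) r <:+ pre β ε (i + (t + 1)) → r ≤ j + 1) ∨
    (j + 1 = m ∧ olt ε (β (!ε) j) (β ε (i + t)) ∧
      (∀ c, olt ε (β (!ε) j) c → ¬ olt ε c (β ε (i + t))) ∧
      (∀ r, pre β (!ε) r <:+ pre β ε (i + (t + 1)) → r ≤ 0) ∧
      ∃ c, Lang β (pre β ε (i + t) ++ [c]) ∧ idx β (pre β ε (i + t) ++ [c]) = m) := by
  have hjt := R.inner H hm hm0 hmt ht hj
  have hjm := R.short ht.le hjt hj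
  have hle : ole ε (β (!ε) j) (β ε (i + t)) := by
    have := H.letter_le hj
    rwa [ole_not] at this
  have e1 : i + (t + 1) = i + t + 1 := by omega
  by_cases hc : β ε (i + t) = β (!ε) j
  · left
    have hnext : pre β (!ε) (j + 1) <:+ pre β ε (i + (t + 1)) := by
      rw [e1, pre_succ β ε (i + t), pre_suffix_concat]
      exact ⟨hj, hc⟩
    refine ⟨R.short (t := t + 1) (by omega) (by omega) hnext, hc, hnext, fun r hr => ?_⟩
    rcases Nat.eq_zero_or_pos r with h0 | h0
    · omega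
    · obtain ⟨r, rfl⟩ := Nat.exists_eq_succ_of_ne_zero h0.ne'
      rw [e1, pre_succ β ε (i + t), Nat.succ_eq_add_one, pre_suffix_concat] at hr
      have := hjmax r hr.1
      omega
  · right
    have hlt : olt ε (β (!ε) j) (β ε (i + t)) := olt_of hle (fun h => hc h.symm)
    -- general fact about allowed letters in between
    have key : ∀ c, ole ε (β (!ε) j) c → olt ε c (β ε (i + t)) →
        Lang β (pre β ε (i + t) ++ [c]) ∧ c = β (!ε) j ∧ m ≤ j + 1 ∧
          idx β (pre β ε (i + t) ++ [c]) ≤ j + 1 ∧ m ≤ idx β (pre β ε (i + t) ++ [c]) := by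
      intro c h1 h2
      have hL := H.allowed hj hjmax h1 (olt_le h2)
      have hcut := hm ε (i + t) c (by omega) hL
      obtain ⟨r, hr1, hr2, hr3, hr4⟩ := H.leave_match hL (olt_ne h2) hm0 hcut
      have hrj := hjmax r hr3
      have hs : pre β (!ε) r <:+ pre β (!ε) j :=
        List.suffix_of_suffix_length_le hr3 hj (by simpa using hrj)
      have h3 := H.letter_le hs
      rw [ole_not, ← hr4] at h3
      refine ⟨hL, ole_antisymm h3 h1, by omega, by omega, hcut⟩
    obtain ⟨k1, -, k2, k3, k4⟩ := key _ (ole_refl ε _) hlt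
    refine ⟨by omega, hlt, fun c h1 h2 => ?_, fun r hr => ?_, β (!ε) j, k1, by omega⟩
    · have := (key c (olt_le h1) h2).2.1
      exact olt_ne h1 this.symm
    · rcases Nat.eq_zero_or_pos r with h0 | h0
      · omega
      · exfalso
        obtain ⟨r, rfl⟩ := Nat.exists_eq_succ_of_ne_zero h0.ne'
        rw [e1, pre_succ β ε (i + t), Nat.succ_eq_add_one, pre_suffix_concat] at hr
        have hrj := hjmax r hr.1
        have hs : pre β (!ε) r <:+ pre β (!ε) j :=
          List.suffix_of_suffix_length_le hr.1 hj (by simpa using hrj)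
        have h3 := H.letter_le hs
        rw [ole_not, ← hr.2] at h3
        exact not_olt_of_ole h3 hlt

/-- The maximal opposite match at time `t`. -/
noncomputable def JJ (β : Bool → ℕ → Fin (M + 1)) (ε : Bool) (n : ℕ) : ℕ :=
  Classical.choose (exists_max_match β (!ε) (pre β ε n))

lemma JJ_spec (ε : Bool) (n : ℕ) : pre β (!ε) (JJ β ε n) <:+ pre β ε n :=
  (Classical.choose_spec (exists_max_match β (!ε) (pre β ε n))).1

lemma JJ_max (ε : Bool) (n : ℕ) : ∀ r, pre β (!ε) r <:+ pre β ε n → r ≤ JJ β ε n :=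
  (Classical.choose_spec (exists_max_match β (!ε) (pre β ε n))).2

lemma MinRep.JJ_lt (H : Good β) {m : ℕ} (hm : Cut β m) (hm0 : 0 < m)
    {Y : List (Fin (M + 1))} {ε : Bool} {i : ℕ}
    (R : MinRep β m Y ε i) {t : ℕ} (hmt : m ≤ t) (ht : t < Y.length) : JJ β ε (i + t) < m :=
  R.short ht.le (R.inner H hm hm0 hmt ht (JJ_spec ε _)) (JJ_spec ε _)

lemma MinRep.JJ_succ (H : Good β) {m : ℕ} (hm : Cut β m) (hm0 : 0 < m)
    {Y : List (Fin (M + 1))} {ε : Bool} {i : ℕ}
    (R : MinRep β m Y ε i) {t : ℕ} (hmt : m ≤ t) (ht : t < Y.length) :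
    JJ β ε (i + (t + 1)) = (JJ β ε (i + t) + 1) % m := by
  rcases R.step H hm hm0 hmt ht (JJ_spec ε _) (JJ_max ε _) with ⟨h1, h2, h3, h4⟩ | ⟨h1, h2, h3, h4, h5⟩
  · rw [Nat.mod_eq_of_lt h1]
    exact le_antisymm (h4 _ (JJ_spec ε _)) (JJ_max ε _ _ h3)
  · rw [h1, Nat.mod_self]
    exact Nat.le_zero.mp (h4 _ (JJ_spec ε _))

lemma MinRep.JJ_add (H : Good β) {m : ℕ} (hm : Cut β m) (hm0 : 0 < m)
    {Y : List (Fin (M + 1))} {ε : Bool} {i : ℕ}
    (R : MinRep β m Y ε i) {t x : ℕ} (hmt : m ≤ t) (ht : t + x < Y.length) :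
    JJ β ε (i + (t + x)) = (JJ β ε (i + t) + x) % m := by
  induction x with
  | zero =>
    have := R.JJ_lt H hm hm0 hmt (by omega)
    simp [Nat.mod_eq_of_lt this]
  | succ x ih =>
    have h1 := ih (by omega)
    rw [← Nat.add_assoc t x 1, R.JJ_succ H hm hm0 (by omega) (by omega), h1, Nat.mod_add_mod]
    congr 1

lemma MinRep.letter_eq (H : Good β) {m : ℕ} (hm : Cut β m) (hm0 : 0 < m)
    {Y : List (Fin (M + 1))} {ε : Bool} {i : ℕ}
    (R : MinRep β m Y ε i) {t t' : ℕ} (hmt : m ≤ t) (ht : t < Y.length) (hmt' : m ≤ t')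
    (ht' : t' < Y.length) (h : JJ β ε (i + t) = JJ β ε (i + t')) :
    β ε (i + t) = β ε (i + t') := by
  rcases R.step H hm hm0 hmt ht (JJ_spec ε _) (JJ_max ε _) with ⟨h1, h2, h3, h4⟩ | ⟨h1, h2, h3, h4, h5⟩ <;>
  rcases R.step H hm hm0 hmt' ht' (JJ_spec ε _) (JJ_max ε _) with
    ⟨g1, g2, g3, g4⟩ | ⟨g1, g2, g3, g4, g5⟩
  · rw [h2, g2, h]
  · omega
  · omega
  · by_contra hne
    rw [h] at h2 h3
    rcases ole_total ε (β ε (i + t)) (β ε (i + t')) with h6 | h6
    · exact g3 _ h2 (olt_of h6 hne)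
    · exact h3 _ g2 (olt_of h6 (fun h => hne h.symm))

/-- Low words are periodic with period `m` after time `m`. -/
lemma Low.periodic (H : Good β) (hT : Trans β) {m : ℕ} (hm : Cut β m) (hm0 : 0 < m)
    {Y : List (Fin (M + 1))} (hY : Low β m Y) {t : ℕ} (hmt : m ≤ t) (ht : t + m < Y.length) :
    Y[t + m]? = Y[t]? := by
  obtain ⟨ε, i, R⟩ := exists_minRep H hT hm hY
  rw [R.getElem ht, R.getElem (by omega)]
  congr 1
  apply R.letter_eq H hm hm0 (by omega) ht hmt (by omega)
  rw [R.JJ_add H hm hm0 hmt ht, Nat.add_mod_right, Nat.mod_eq_of_lt]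
  exact R.JJ_lt H hm hm0 hmt (by omega)

lemma Low.unique (H : Good β) (hT : Trans β) {m : ℕ} (hm : Cut β m) (hm0 : 0 < m)
    {y : List (Fin (M + 1))} {d d' : Fin (M + 1)} (h : Low β m (y ++ [d]))
    (h' : Low β m (y ++ [d'])) (hl : 2 * m ≤ y.length) : d = d' := by
  have h1 := h.periodic H hT hm hm0 (t := y.length - m) (by omega) (by simp; omega)
  have h2 := h'.periodic H hT hm hm0 (t := y.length - m) (by omega) (by simp; omega)
  have e : y.length - m + m = y.length := by omega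
  rw [e, List.getElem?_append_right le_rfl, List.getElem?_append_left (by omega)] at h1 h2
  simp at h1 h2
  rw [← h2] at h1
  simpa using h1

/-- If there are long low words for a cut `m`, then `m` is the largest cut below the length. -/
lemma Low.no_cut (H : Good β) (hT : Trans β) {m : ℕ} (hm : Cut β m) (hm0 : 0 < m)
    {Y : List (Fin (M + 1))} (hY : Low β m Y) {m' : ℕ} (h1 : m < m') (h2 : m' + 2 * m < Y.length) :
    ¬ Cut β m' := by
  obtain ⟨ε, i, R⟩ := exists_minRep H hT hm hY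
  intro hcut
  set t0 := Y.length - m - 1 with ht0
  set x := m - 1 - JJ β ε (i + t0) with hx
  have hlt := R.JJ_lt H hm hm0 (t := t0) (by omega) (by omega)
  have h3 : JJ β ε (i + (t0 + x)) = m - 1 := by
    rw [R.JJ_add H hm hm0 (by omega) (by omega), Nat.mod_eq_of_lt (by omega)]
    omega
  rcases R.step H hm hm0 (t := t0 + x) (by omega) (by omega) (JJ_spec ε _) (JJ_max ε _) with
    ⟨g1, -⟩ | ⟨-, -, -, -, c, g5, g6⟩
  · omega
  · have := hcut ε (i + (t0 + x)) c (by omega) g5
    omega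

end Pool.Agent.Lib.MP_0ad9bc_an
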