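import Mathlib
import Pool.Agent.Lib.MP_0ad9bc_an.Part3

/-!
Reflection symmetry, the case of unboundedly many cuts, and loops above the largest cut.
-/

namespace Pool.Agent.Lib.MP_0ad9bc_an

variable {M : ℕ} {β : Bool → ℕ → Fin (M + 1)}

lemma map_rev_rev (u : List (Fin (M + 1))) : (u.map Fin.rev).map Fin.rev = u := by
  have h : (Fin.rev ∘ Fin.rev : Fin (M + 1) → Fin (M + 1)) = id := by
    funext x; simp
  rw [List.map_map, h, List.map_id]

lemma Good.map_pre (H : Good β) (ε : Bool) (r : ℕ) : (pre β ε r).map Fin.rev = pre β (!ε) r := by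
  simp only [pre, List.map_map]
  apply List.map_congr_left
  intro n _
  simp [H.rev]

lemma Good.Lang_map (H : Good β) {u : List (Fin (M + 1))} (h : Lang β u) :
    Lang β (u.map Fin.rev) := by
  intro v c hv ε r hr
  have h1 : (v.map Fin.rev) ++ [c.rev] <+: u := by
    have h0 := hv.map Fin.rev
    rw [map_rev_rev] at h0
    simpa using h0
  have h2 : pre β (!ε) r <:+ v.map Fin.rev := by
    rw [← H.map_pre]; exact hr.map _
  have h3 := h _ _ h1 _ _ h2
  rw [H.rev] at h3
  exact ole_rev.mp h3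

lemma Good.idx_map_le (H : Good β) (u : List (Fin (M + 1))) : idx β u ≤ idx β (u.map Fin.rev) := by
  obtain ⟨ε, h⟩ := idx_spec β u
  have h2 := h.map Fin.rev
  rw [H.map_pre] at h2
  exact le_idx β h2

lemma Good.idx_map (H : Good β) (u : List (Fin (M + 1))) : idx β (u.map Fin.rev) = idx β u := by
  apply le_antisymm
  · have := H.idx_map_le (u.map Fin.rev)
    rwa [map_rev_rev] at this
  · exact H.idx_map_le u

lemma Good.not_cut (H : Good β) {m : ℕ} (h : ¬ Cut β m) (ε : Bool) :
    ∃ k c, m ≤ k ∧ Lang β (pre β ε k ++ [c]) ∧ idx β (pre β ε k ++ [c]) < m := by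
  unfold Cut at h
  push Not at h
  obtain ⟨ε', k, c, h1, h2, h3⟩ := h
  by_cases he : ε' = ε
  · subst he; exact ⟨k, c, h1, h2, h3⟩
  · have he' : ε = !ε' := by cases ε <;> cases ε' <;> simp_all
    subst he'
    have e : (pre β ε' k ++ [c]).map Fin.rev = pre β (!ε') k ++ [c.rev] := by
      simp [H.map_pre]
    refine ⟨k, c.rev, h1, ?_, ?_⟩
    · rw [← e]; exact H.Lang_map h2
    · rw [← e, H.idx_map]; exact h3

/-- Following an extreme sequence. -/
lemma Good.follow (H : Good β) {u : List (Fin (M + 1))} {ε : Bool} {k k' : ℕ} (hu : Lang β u)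
    (hs : st β u = pre β ε k) (hk : k ≤ k') :
    ∃ v, Lang β (u ++ v) ∧ st β (u ++ v) = pre β ε k' ∧
      ∀ z, Lang β (pre β ε k' ++ z) → Lang β (u ++ v ++ z) ∧ st β (u ++ v ++ z) = st β (pre β ε k' ++ z) := by
  obtain ⟨v, hv⟩ := pre_prefix β ε hk
  have h0 : st β u = st β (pre β ε k) := by rw [hs, st_pre]
  have h1 : Lang β (u ++ v) := by
    apply Lang_congr β hu h0.symm
    rw [hv]; exact H.lang ε k'
  have h2 : st β (u ++ v) = pre β ε k' := by
    rw [st_congr β h0, hv, st_pre]
  refine ⟨v, h1, h2, fun z hz => ?_⟩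
  have h3 : st β (u ++ v) = st β (pre β ε k') := by rw [h2, st_pre]
  exact ⟨Lang_congr β h1 h3.symm hz, st_congr β h3 z⟩

/-- A largest cut. -/
structure MaxCut (β : Bool → ℕ → Fin (M + 1)) (m : ℕ) : Prop where
  cut : Cut β m
  max : ∀ k, m < k → ¬ Cut β k

lemma MaxCut.reach_min (H : Good β) {m : ℕ} (hm : MaxCut β m) :
    ∀ k (u : List (Fin (M + 1))), Lang β u → idx β u = k → m ≤ k →
      ∃ v, Lang β (u ++ v) ∧ idx β (u ++ v) = m := by
  intro k
  induction k using Nat.strong_induction_on with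
  | _ k ih =>
    intro u hu hk hmk
    rcases Nat.eq_or_lt_of_le hmk with h | h
    · exact ⟨[], by simpa using hu, by simpa using hk.trans h.symm⟩
    · obtain ⟨ε, hε⟩ := st_eq_pre β (u := u)
      rw [hk] at hε
      obtain ⟨k', c, h1, h2, h3⟩ := H.not_cut (hm.max k h) ε
      obtain ⟨v, g1, g2, g3⟩ := H.follow hu hε h1
      obtain ⟨f1, f2⟩ := g3 [c] h2
      have f3 : idx β (u ++ v ++ [c]) = idx β (pre β ε k' ++ [c]) := by
        rw [← length_st, f2, length_st]
      have f4 : m ≤ idx β (u ++ v ++ [c]) := by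
        apply hm.cut.persist f1
        rw [← length_st, g2, length_pre]; omega
      obtain ⟨v', e1, e2⟩ := ih _ (by rw [f3]; exact h3) (u ++ v ++ [c]) f1 rfl f4
      refine ⟨v ++ [c] ++ v', ?_, ?_⟩
      · simpa [List.append_assoc] using e1
      · simpa [List.append_assoc] using e2

lemma MaxCut.switch (H : Good β) {m : ℕ} (hm : MaxCut β m) {u : List (Fin (M + 1))} {ε : Bool}
    (hu : Lang β u) (hs : st β u = pre β ε m) :
    ∃ v, Lang β (u ++ v) ∧ st β (u ++ v) = pre β (!ε) m := by
  rcases Nat.eq_zero_or_pos m with h0 | h0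
  · subst h0
    refine ⟨[], by simpa using hu, ?_⟩
    simp at hs ⊢
    exact hs
  · obtain ⟨k, c, h1, h2, h3⟩ := H.not_cut (hm.max (m + 1) (by omega)) ε
    obtain ⟨v, g1, g2, g3⟩ := H.follow hu hs (show m ≤ k by omega)
    obtain ⟨f1, f2⟩ := g3 [c] h2
    have h4 : m ≤ idx β (pre β ε k ++ [c]) := hm.cut ε k c (by omega) h2
    have hc : c ≠ β ε k := by
      rintro rfl
      rw [← pre_succ, idx_pre] at h3
      omega
    obtain ⟨r, r1, r2, r3, r4⟩ := H.leave_match h2 hc h0 h4
    have hr : r + 1 = m := by omega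
    refine ⟨v ++ [c], by simpa [List.append_assoc] using f1, ?_⟩
    rw [← List.append_assoc, f2]
    apply st_eq_of_suffix
    · rw [← hr, pre_suffix_concat]
      exact ⟨r3, r4⟩
    · rw [length_pre]; omega

lemma MaxCut.reach (H : Good β) {m : ℕ} (hm : MaxCut β m) {u : List (Fin (M + 1))}
    (hu : Lang β u) (hi : m ≤ idx β u) (ε : Bool) {k : ℕ} (hk : m ≤ k) :
    ∃ v, Lang β (u ++ v) ∧ st β (u ++ v) = pre β ε k := by
  obtain ⟨v, h1, h2⟩ := hm.reach_min H _ u hu rfl hi
  obtain ⟨ε', h3⟩ := st_eq_pre β (u := u ++ v)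
  rw [h2] at h3
  obtain ⟨v', h4, h5⟩ : ∃ v', Lang β (u ++ v ++ v') ∧ st β (u ++ v ++ v') = pre β ε m := by
    by_cases he : ε' = ε
    · subst he
      exact ⟨[], by simpa using h1, by simpa using h3⟩
    · have he' : ε = !ε' := by cases ε <;> cases ε' <;> simp_all
      subst he'
      exact hm.switch H h1 h3
  obtain ⟨v'', h6, h7, -⟩ := H.follow h4 h5 hk
  exact ⟨v ++ v' ++ v'', by simpa [List.append_assoc] using h6,
    by simpa [List.append_assoc] using h7⟩

/-- `r` is a loop at the state `pre β ε k`. -/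
def Loop (β : Bool → ℕ → Fin (M + 1)) (ε : Bool) (k : ℕ) (r : List (Fin (M + 1))) : Prop :=
  Lang β (pre β ε k ++ r) ∧ st β (pre β ε k ++ r) = pre β ε k

lemma MaxCut.loop (H : Good β) (hT : Trans β) {m : ℕ} (hm : MaxCut β m) (ε : Bool) {k : ℕ}
    (hk : m ≤ k) {w : List (Fin (M + 1))} (hw : Lang β w) : ∃ r, Loop β ε k r ∧ w <:+: r := by
  obtain ⟨v, hv⟩ := hT (pre β ε k) w (H.lang ε k) hw
  have h1 : m ≤ idx β (pre β ε k ++ v ++ w) := by
    rw [List.append_assoc] at hv ⊢
    exact hm.cut.persist hv (by rw [idx_pre]; exact hk)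
  obtain ⟨v', h2, h3⟩ := hm.reach H hv h1 ε hk
  refine ⟨v ++ w ++ v', ⟨by simpa [List.append_assoc] using h2,
    by simpa [List.append_assoc] using h3⟩, ⟨v, v', rfl⟩⟩

lemma Loop.use {ε : Bool} {k : ℕ} {r g : List (Fin (M + 1))} (h : Loop β ε k r) (hg : Lang β g)
    (hs : st β g = pre β ε k) : Lang β (g ++ r) ∧ st β (g ++ r) = st β g := by
  have h0 : st β g = st β (pre β ε k) := by rw [hs, st_pre]
  refine ⟨Lang_congr β hg h0.symm h.1, ?_⟩
  rw [st_congr β h0, h.2, hs]

/-- The words of a subsystem. -/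
structure Sub (β : Bool → ℕ → Fin (M + 1)) (X : List (Fin (M + 1)) → Prop) : Prop where
  lang : ∀ u, X u → Lang β u
  infix_closed : ∀ u v, X v → u <:+: v → X u
  long : ∀ n, ∃ u, X u ∧ u.length = n

/-- With unboundedly many cuts there is no proper subsystem. -/
lemma Sub.all_of_cuts (H : Good β) (hT : Trans β) (hc : ∀ n, ∃ m, n ≤ m ∧ Cut β m)
    {X : List (Fin (M + 1)) → Prop} (hX : Sub β X) {w : List (Fin (M + 1))} (hw : Lang β w) :
    X w := by
  have h1 : ∀ y, Lang β y → ∃ ε l, y <:+: pre β ε l := by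
    intro y hy
    obtain ⟨m, hm1, hm2⟩ := hc (y.length + 1)
    obtain ⟨ε, l, -, h⟩ := exists_rep H hT hm2 hy (Or.inr (by omega))
    exact ⟨ε, l, h.isInfix⟩
  have h2 : ∀ ε l, ∃ l', pre β ε l <:+: pre β (!ε) l' := by
    intro ε l
    obtain ⟨v, hv⟩ := hT (pre β (!ε) l) (pre β ε l) (H.lang _ _) (H.lang _ _)
    obtain ⟨ε', l', h⟩ := h1 _ hv
    by_cases he : ε' = ε
    · subst he
      refine ⟨l', ?_⟩
      have h3 : pre β (!ε') l <:+: pre β ε' l' := by
        refine List.IsInfix.trans ?_ h
        rw [List.append_assoc]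
        exact (List.prefix_append _ _).isInfix
      obtain ⟨a, b, hab⟩ := h3
      refine ⟨a.map Fin.rev, b.map Fin.rev, ?_⟩
      have h4 := congrArg (fun l => List.map Fin.rev l) hab
      simp only [List.map_append, H.map_pre, Bool.not_not] at h4
      exact h4
    · have he' : ε' = !ε := by cases ε <;> cases ε' <;> simp_all
      subst he'
      exact ⟨l', (List.suffix_append _ _).isInfix.trans h⟩
  have h3 : ∀ ε, ∃ l, w <:+: pre β ε l := by
    intro ε
    obtain ⟨ε', l, h⟩ := h1 w hw
    by_cases he : ε' = ε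
    · subst he; exact ⟨l, h⟩
    · have he' : ε = !ε' := by cases ε <;> cases ε' <;> simp_all
      subst he'
      obtain ⟨l', h'⟩ := h2 ε' l
      exact ⟨l', h.trans h'⟩
  obtain ⟨l1, hl1⟩ := h3 true
  obtain ⟨l2, hl2⟩ := h3 false
  obtain ⟨m, hm1, hm2⟩ := hc (l1 + l2 + 1)
  obtain ⟨m', hm1', hm2'⟩ := hc (m + 1)
  obtain ⟨u, hu1, hu2⟩ := hX.long (m' + 2 * m + 1)
  have h4 : ¬ Low β m u := fun hlow =>
    hlow.no_cut H hT hm2 (by omega) (show m < m' by omega) (by omega) hm2'
  have h5 : ∃ ε, pre β ε m <:+: u := by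
    by_contra hcon
    push Not at hcon
    exact h4 ⟨hX.lang u hu1, hcon⟩
  obtain ⟨ε, h5⟩ := h5
  apply hX.infix_closed _ _ hu1
  refine List.IsInfix.trans ?_ h5
  cases ε
  · exact hl2.trans (pre_prefix β false (show l2 ≤ m by omega)).isInfix
  · exact hl1.trans (pre_prefix β true (show l1 ≤ m by omega)).isInfix

/-- If all loops commute there is no proper subsystem. -/
lemma Sub.all_of_commute (H : Good β) (hT : Trans β) {m : ℕ} (hm : MaxCut β m)
    (hcomm : ∀ r r', Loop β true m r → Loop β true m r' → r ++ r' = r' ++ r)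
    {X : List (Fin (M + 1)) → Prop} (hX : Sub β X) {w : List (Fin (M + 1))} (hw : Lang β w)
    (hw0 : w ≠ []) : X w := by
  obtain ⟨r, hr1, hr2⟩ := hm.loop H hT true le_rfl hw
  have hrpos : 0 < r.length := by
    have := hr2.length_le
    have := List.length_pos_of_ne_nil hw0
    omega
  obtain ⟨y, hy1, hy2⟩ := hX.long (2 * r.length)
  obtain ⟨z, hz1, hz2⟩ := hm.loop H hT true le_rfl (hX.lang y hy1)
  have hc := hcomm z r hz1 hr1
  have hzl : r.length ≤ z.length := by
    have := hz2.length_le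
    omega
  have key : ∀ i, i < z.length → z[i]? = r[i % r.length]? := by
    intro i
    induction i using Nat.strong_induction_on with
    | _ i ih =>
      intro hi
      rcases Nat.lt_or_ge i r.length with hlt | hge
      · rw [Nat.mod_eq_of_lt hlt]
        have h1 : (z ++ r)[i]? = (r ++ z)[i]? := by rw [hc]
        rwa [List.getElem?_append_left hi, List.getElem?_append_left hlt] at h1
      · have h1 : (z ++ r)[i]? = (r ++ z)[i]? := by rw [hc]
        rw [List.getElem?_append_left hi, List.getElem?_append_right hge] at h1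
        rw [h1, ih (i - r.length) (by omega) (by omega)]
        congr 1
        conv_rhs => rw [← Nat.sub_add_cancel hge, Nat.add_mod_right]
  obtain ⟨s, t, hst⟩ := hz2
  -- position of an aligned copy of `r` inside `y`
  set x := r.length - s.length % r.length with hx
  have hmod : s.length % r.length < r.length := Nat.mod_lt _ hrpos
  have hrY : r = (y.drop x).take r.length := by
    apply List.ext_getElem?
    intro i
    rcases Nat.lt_or_ge i r.length with hlt | hge
    · rw [List.getElem?_take_of_lt hlt, List.getElem?_drop]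
      have h1 := key (s.length + (x + i)) (by
        have := congrArg List.length hst
        simp at this
        omega)
      rw [← hst, List.getElem?_append_left (by simp; omega),
        List.getElem?_append_right (by omega)] at h1
      have e1 : s.length + (x + i) - s.length = x + i := by omega
      rw [e1] at h1
      rw [h1]
      congr 1
      have e2 : s.length + (x + i) = i + r.length * (s.length / r.length + 1) := by
        have := Nat.div_add_mod s.length r.length
        rw [Nat.mul_add, Nat.mul_one]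
        omega
      rw [e2, Nat.add_mul_mod_self_left, Nat.mod_eq_of_lt hlt]
    · rw [List.getElem?_eq_none hge, List.getElem?_eq_none (by simp; omega)]
  apply hX.infix_closed _ _ hy1
  refine hr2.trans ?_
  rw [hrY]
  exact (List.take_prefix _ _).isInfix.trans (List.drop_suffix _ _).isInfix

end Pool.Agent.Lib.MP_0ad9bc_an
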