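import Mathlib
import Pool.Agent.Lib.MP_0ad9bc_an.Part4

/-!
Counting words: finite sums over words of given length, low words, and words with few good times.
-/

namespace Pool.Agent.Lib.MP_0ad9bc_an

open Finset

section Words

variable {α : Type} [Fintype α]

/-- The finite set of words of length `n`. -/
noncomputable def W (α : Type) [Fintype α] (n : ℕ) : Finset (List α) :=
  (List.finite_length_eq α n).toFinset

@[simp] lemma mem_W {n : ℕ} {u : List α} : u ∈ W α n ↔ u.length = n := by
  simp [W]

lemma W_zero : W α 0 = {[]} := by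
  ext u; simp

lemma sum_W_add {N : Type} [AddCommMonoid N] (a b : ℕ) (f : List α → N) :
    ∑ u ∈ W α (a + b), f u = ∑ u ∈ W α a, ∑ v ∈ W α b, f (u ++ v) := by
  rw [← Finset.sum_product']
  refine Finset.sum_bij' (fun u _ => (u.take a, u.drop a)) (fun p _ => p.1 ++ p.2) ?_ ?_ ?_ ?_ ?_
  · intro u hu
    simp only [mem_W] at hu
    simp only [Finset.mem_product, mem_W, List.length_take, List.length_drop]
    omega
  · rintro ⟨u, v⟩ hp
    simp only [Finset.mem_product, mem_W] at hp
    simp [hp.1, hp.2]
  · intro u hu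
    simp
  · rintro ⟨u, v⟩ hp
    simp only [Finset.mem_product, mem_W] at hp
    simp only [Prod.mk.injEq]
    constructor
    · exact List.take_left' hp.1
    · exact List.drop_left' hp.1
  · intro u hu
    simp

lemma sum_W_one {N : Type} [AddCommMonoid N] (f : List α → N) :
    ∑ u ∈ W α 1, f u = ∑ c : α, f [c] := by
  symm
  refine Finset.sum_bij (fun c _ => [c]) ?_ ?_ ?_ ?_
  · intro c _; simp
  · intro c _ d _ h; simpa using h
  · intro u hu
    simp only [mem_W] at hu
    obtain ⟨c, rfl⟩ := List.length_eq_one_iff.mp hu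
    exact ⟨c, Finset.mem_univ _, rfl⟩
  · intro c _; rfl

lemma sum_W_snoc {N : Type} [AddCommMonoid N] (n : ℕ) (f : List α → N) :
    ∑ u ∈ W α (n + 1), f u = ∑ u ∈ W α n, ∑ c : α, f (u ++ [c]) := by
  rw [sum_W_add]
  refine Finset.sum_congr rfl fun u _ => ?_
  rw [sum_W_one]

lemma sum_W_cons {N : Type} [AddCommMonoid N] (n : ℕ) (f : List α → N) :
    ∑ u ∈ W α (n + 1), f u = ∑ c : α, ∑ u ∈ W α n, f (c :: u) := by
  rw [Nat.add_comm, sum_W_add, sum_W_one]
  rfl

lemma card_W (n : ℕ) : (W α n).card = Fintype.card α ^ n := by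
  induction n with
  | zero => rw [W_zero]; simp
  | succ n ih =>
    rw [Finset.card_eq_sum_ones, sum_W_snoc]
    simp [ih, pow_succ]

end Words

variable {M : ℕ} {β : Bool → ℕ → Fin (M + 1)}

open Classical in
lemma low_card (H : Good β) (hT : Trans β) {m : ℕ} (hm : Cut β m) (n : ℕ) :
    ((W (Fin (M + 1)) n).filter (fun u => Low β m u)).card ≤ (M + 1) ^ (2 * m) := by
  rcases Nat.eq_zero_or_pos m with h0 | h0
  · subst h0
    rw [Finset.filter_eq_empty_iff.mpr]
    · simp
    · intro u _ hu
      exact hu.2 true (by simp)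
  · induction n with
    | zero =>
      refine (Finset.card_filter_le _ _).trans ?_
      rw [card_W]
      simp
      exact Nat.one_le_pow _ _ (by omega)
    | succ n ih =>
      rcases Nat.lt_or_ge n (2 * m) with h1 | h1
      · refine (Finset.card_filter_le _ _).trans ?_
        rw [card_W, Fintype.card_fin]
        exact Nat.pow_le_pow_right (by omega) (by omega)
      · refine le_trans ?_ ih
        apply Finset.card_le_card_of_injOn (fun u => u.take n)
        · intro u hu
          simp only [Finset.coe_filter, mem_W, Set.mem_ofPred_eq] at hu ⊢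
          refine ⟨by simp [hu.1], hu.2.of_infix (List.take_prefix _ _).isInfix⟩
        · intro u hu v hv huv
          simp only [Finset.coe_filter, mem_W, Set.mem_ofPred_eq] at hu hv huv
          obtain ⟨u', c, rfl⟩ : ∃ u' c, u = u' ++ [c] := by
            rcases List.eq_nil_or_concat u with h | ⟨u', c, h⟩
            · subst h; simp at hu
            · exact ⟨u', c, by simpa using h⟩
          obtain ⟨v', d, rfl⟩ : ∃ v' d, v = v' ++ [d] := by
            rcases List.eq_nil_or_concat v with h | ⟨v', d, h⟩
            · subst h; simp at hv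
            · exact ⟨v', d, by simpa using h⟩
          have hl1 : u'.length = n := by simpa using hu.1
          have hl2 : v'.length = n := by simpa using hv.1
          rw [List.take_left' hl1, List.take_left' hl2] at huv
          subst huv
          rw [hu.2.unique H hT hm h0 hv.2 (by omega)]

/-- Number of good times strictly after `g` along `g ++ u`. -/
noncomputable def G (good : List (Fin (M + 1)) → Prop) :
    List (Fin (M + 1)) → List (Fin (M + 1)) → ℕ
  | _, [] => 0
  | g, c :: u => (if @decide (good (g ++ [c])) (Classical.dec _) then 1 else 0) + G good (g ++ [c]) u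

open Classical in
lemma G_cons (good : List (Fin (M + 1)) → Prop) (g u : List (Fin (M + 1))) (c : Fin (M + 1)) :
    G good g (c :: u) = (if good (g ++ [c]) then 1 else 0) + G good (g ++ [c]) u := by
  rw [G]
  by_cases h : good (g ++ [c]) <;> simp [h]

open Classical in
lemma G_snoc (good : List (Fin (M + 1)) → Prop) (g u : List (Fin (M + 1))) (c : Fin (M + 1)) :
    G good g (u ++ [c]) = G good g u + (if good (g ++ u ++ [c]) then 1 else 0) := by
  induction u generalizing g with
  | nil => simp [G_cons, G]
  | cons d u ih =>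
    rw [List.cons_append, G_cons, G_cons, ih]
    simp [List.append_assoc, Nat.add_assoc]

lemma G_append_le (good : List (Fin (M + 1)) → Prop) (g u v : List (Fin (M + 1))) :
    G good g u ≤ G good g (u ++ v) := by
  classical
  induction v using List.reverseRecOn with
  | nil => simp
  | append_singleton v c ih =>
    rw [← List.append_assoc, G_snoc]
    omega

/-- Weighted count of the words of the language. -/
noncomputable def SS (β : Bool → ℕ → Fin (M + 1)) (good : List (Fin (M + 1)) → Prop) (θ : ℝ)
    (n : ℕ) : ℝ :=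
  ∑ u ∈ W (Fin (M + 1)) n, if @decide (Lang β u) (Classical.dec _) then θ ^ G good [] u else 0

open Classical in
lemma SS_eq (good : List (Fin (M + 1)) → Prop) (θ : ℝ) (n : ℕ) :
    SS β good θ n = ∑ u ∈ W (Fin (M + 1)) n, if Lang β u then θ ^ G good [] u else 0 := by
  rw [SS]
  refine Finset.sum_congr rfl fun u _ => ?_
  by_cases h : Lang β u <;> simp [h]

lemma SS_nonneg (good : List (Fin (M + 1)) → Prop) {θ : ℝ} (hθ : 0 ≤ θ) (n : ℕ) :
    0 ≤ SS β good θ n := by
  classical
  rw [SS_eq]
  refine Finset.sum_nonneg fun u _ => ?_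
  split_ifs
  · positivity
  · exact le_rfl

lemma SS_zero (good : List (Fin (M + 1)) → Prop) (θ : ℝ) : SS β good θ 0 = 1 := by
  classical
  rw [SS_eq, W_zero]
  simp [Lang_nil, G]

lemma SS_succ (H : Good β) (hT : Trans β) {m : ℕ} (hm : Cut β m) (N : ℕ)
    {θ : ℝ} (hθ : 0 ≤ θ) (hθ1 : θ ≤ 1) (n : ℕ) :
    SS β (fun u => m ≤ idx β u ∧ idx β u ≤ N) θ (n + 1) ≤
      ((M + 1) ^ (2 * m) : ℕ) + θ * (M + 1) * SS β (fun u => m ≤ idx β u ∧ idx β u ≤ N) θ n +
        2 * ∑ j ∈ range (n + 1 - N), SS β (fun u => m ≤ idx β u ∧ idx β u ≤ N) θ j := by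
  classical
  set good : List (Fin (M + 1)) → Prop := fun u => m ≤ idx β u ∧ idx β u ≤ N with hgood
  -- the three pieces
  have hpt : ∀ u ∈ W (Fin (M + 1)) (n + 1), (if Lang β u then θ ^ G good [] u else 0) ≤
      (if Low β m u then (1 : ℝ) else 0) +
      (if Lang β (u.take n) then θ * θ ^ G good [] (u.take n) else 0) +
      ∑ ε : Bool, ∑ j ∈ range (n + 1 - N),
        (if u.drop j = pre β ε (n + 1 - j) ∧ Lang β (u.take j) then θ ^ G good [] (u.take j) else 0) := by
    intro u hu
    rw [mem_W] at hu
    have p1 : (0 : ℝ) ≤ (if Low β m u then (1 : ℝ) else 0) := by split_ifs <;> norm_num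
    have p2 : (0 : ℝ) ≤ (if Lang β (u.take n) then θ * θ ^ G good [] (u.take n) else 0) := by
      split_ifs
      · positivity
      · exact le_rfl
    have p3' : ∀ ε : Bool, ∀ j ∈ range (n + 1 - N), (0 : ℝ) ≤
        (if u.drop j = pre β ε (n + 1 - j) ∧ Lang β (u.take j) then θ ^ G good [] (u.take j) else 0) := by
      intro ε j _
      split_ifs
      · positivity
      · exact le_rfl
    have p3 : (0 : ℝ) ≤ ∑ ε : Bool, ∑ j ∈ range (n + 1 - N),
        (if u.drop j = pre β ε (n + 1 - j) ∧ Lang β (u.take j) then θ ^ G good [] (u.take j) else 0) :=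
      Finset.sum_nonneg fun ε _ => Finset.sum_nonneg (p3' ε)
    by_cases hL : Lang β u
    swap
    · rw [if_neg hL]
      linarith
    rw [if_pos hL]
    by_cases hlow : Low β m u
    · rw [if_pos hlow]
      have : θ ^ G good [] u ≤ 1 := pow_le_one₀ hθ hθ1
      linarith
    · have hidx : m ≤ idx β u := by
        have h1 : ∃ ε, pre β ε m <:+: u := by
          by_contra hcon
          push Not at hcon
          exact hlow ⟨hL, hcon⟩
        obtain ⟨ε, s, t, hst⟩ := h1
        rw [← hst] at hL ⊢
        exact hm.persist hL (le_idx β (List.suffix_append _ _))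
      by_cases hN : idx β u ≤ N
      · -- good word
        obtain ⟨u', c, rfl⟩ : ∃ u' c, u = u' ++ [c] := by
          rcases List.eq_nil_or_concat u with h | ⟨u', c, h⟩
          · subst h; simp at hu
          · exact ⟨u', c, by simpa using h⟩
        have hl : u'.length = n := by simpa using hu
        rw [List.take_left' hl] at p2 ⊢
        rw [if_pos (Lang_prefix β hL)]
        have hG : G good [] (u' ++ [c]) = G good [] u' + 1 := by
          rw [G_snoc, List.nil_append, if_pos ⟨hidx, hN⟩]
        rw [hG, pow_succ]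
        linarith
      · push Not at hN
        obtain ⟨ε, hε⟩ := st_eq_pre β (u := u)
        have hk := idx_le β u
        set j := n + 1 - idx β u with hj
        have hjm : j ∈ range (n + 1 - N) := by
          rw [Finset.mem_range]; omega
        have hdrop : u.drop j = pre β ε (n + 1 - j) := by
          have e1 : n + 1 - j = idx β u := by omega
          rw [e1, ← hε, st, hu]
        have hLj : Lang β (u.take j) := Lang_of_prefix β hL (List.take_prefix _ _)
        have h1 : θ ^ G good [] u ≤ θ ^ G good [] (u.take j) := by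
          apply pow_le_pow_of_le_one hθ hθ1
          have := G_append_le good [] (u.take j) (u.drop j)
          rwa [List.take_append_drop] at this
        have h2 : θ ^ G good [] (u.take j) ≤ ∑ j ∈ range (n + 1 - N),
            (if u.drop j = pre β ε (n + 1 - j) ∧ Lang β (u.take j) then
              θ ^ G good [] (u.take j) else 0) := by
          refine le_trans ?_ (Finset.single_le_sum (p3' ε) hjm)
          rw [if_pos ⟨hdrop, hLj⟩]
        have h3 := Finset.single_le_sum (f := fun ε => ∑ j ∈ range (n + 1 - N),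
            (if u.drop j = pre β ε (n + 1 - j) ∧ Lang β (u.take j) then
              θ ^ G good [] (u.take j) else 0)) (fun ε _ => Finset.sum_nonneg (p3' ε))
              (Finset.mem_univ ε)
        linarith
  rw [SS_eq]
  refine (Finset.sum_le_sum hpt).trans ?_
  rw [Finset.sum_add_distrib, Finset.sum_add_distrib]
  have q1 : ∑ u ∈ W (Fin (M + 1)) (n + 1), (if Low β m u then (1 : ℝ) else 0) ≤
      ((M + 1) ^ (2 * m) : ℕ) := by
    rw [← Finset.sum_filter, Finset.sum_const, nsmul_eq_mul, mul_one]
    exact_mod_cast low_card H hT hm (n + 1)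
  have q2 : ∑ u ∈ W (Fin (M + 1)) (n + 1),
      (if Lang β (u.take n) then θ * θ ^ G good [] (u.take n) else 0) =
      θ * (M + 1) * SS β good θ n := by
    rw [sum_W_snoc, SS_eq, Finset.mul_sum]
    refine Finset.sum_congr rfl fun u hu => ?_
    rw [mem_W] at hu
    simp only [List.take_left' hu, Finset.sum_const, Finset.card_univ, Fintype.card_fin,
      nsmul_eq_mul]
    split_ifs
    · push_cast; ring
    · simp
  have q3 : ∑ u ∈ W (Fin (M + 1)) (n + 1), ∑ ε : Bool, ∑ j ∈ range (n + 1 - N),
        (if u.drop j = pre β ε (n + 1 - j) ∧ Lang β (u.take j) then θ ^ G good [] (u.take j) else 0) =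
      2 * ∑ j ∈ range (n + 1 - N), SS β good θ j := by
    rw [Finset.sum_comm]
    have q4 : ∀ ε : Bool, ∑ u ∈ W (Fin (M + 1)) (n + 1), ∑ j ∈ range (n + 1 - N),
        (if u.drop j = pre β ε (n + 1 - j) ∧ Lang β (u.take j) then θ ^ G good [] (u.take j) else 0) =
        ∑ j ∈ range (n + 1 - N), SS β good θ j := by
      intro ε
      rw [Finset.sum_comm]
      refine Finset.sum_congr rfl fun j hj => ?_
      rw [Finset.mem_range] at hj
      have e1 : n + 1 = j + (n + 1 - j) := by omega
      conv_lhs => rw [e1]
      rw [sum_W_add, SS_eq]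
      refine Finset.sum_congr rfl fun u hu => ?_
      rw [mem_W] at hu
      rw [Finset.sum_eq_single (pre β ε (n + 1 - j))]
      · rw [List.take_left' hu, List.drop_left' hu]
        have e2 : j + (n + 1 - j) - j = n + 1 - j := by omega
        rw [e2]
        simp
      · intro v _ hv
        rw [List.take_left' hu, List.drop_left' hu, if_neg]
        have e2 : j + (n + 1 - j) - j = n + 1 - j := by omega
        rw [e2]
        exact fun h => hv h.1
      · intro h
        exact absurd (by simp) h
    simp only [q4]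
    simp
  rw [q2, q3]
  linarith

/-- Growth of the weighted count. -/
lemma growth {S : ℕ → ℝ} {K A ρ θ : ℝ} {N : ℕ} (hS : ∀ n, 0 ≤ S n) (h0 : S 0 ≤ 1) (hK : 0 ≤ K)
    (hrec : ∀ n, S (n + 1) ≤ K + θ * A * S n + 2 * ∑ j ∈ range (n + 1 - N), S j)
    (hρ : 1 < ρ) (hN : 6 ≤ ρ ^ N * (ρ - 1)) (hθ : θ * A ≤ 1 / 3) (n : ℕ) :
    S n ≤ (3 * K + 1) * ρ ^ n := by
  have hρ0 : (0 : ℝ) < ρ := by linarith
  induction n using Nat.strong_induction_on with
  | _ n ih =>
    rcases n with _ | n
    · simp; linarith
    · refine (hrec n).trans ?_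
      have h1 : θ * A * S n ≤ 1 / 3 * ((3 * K + 1) * ρ ^ (n + 1)) := by
        have h2 := ih n (by omega)
        have h3 : θ * A * S n ≤ 1 / 3 * S n := mul_le_mul_of_nonneg_right hθ (hS n)
        have h4 : (3 * K + 1) * ρ ^ n ≤ (3 * K + 1) * ρ ^ (n + 1) := by
          apply mul_le_mul_of_nonneg_left _ (by linarith)
          exact pow_le_pow_right₀ hρ.le (by omega)
        linarith
      have h2 : 2 * ∑ j ∈ range (n + 1 - N), S j ≤ 1 / 3 * ((3 * K + 1) * ρ ^ (n + 1)) := by
        rcases Nat.lt_or_ge (n + 1) N with hlt | hge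
        · have : n + 1 - N = 0 := by omega
          rw [this]
          simp
          positivity
        · have h3 : ∑ j ∈ range (n + 1 - N), S j ≤ ∑ j ∈ range (n + 1 - N), (3 * K + 1) * ρ ^ j := by
            apply Finset.sum_le_sum
            intro j hj
            rw [Finset.mem_range] at hj
            exact ih j (by omega)
          rw [← Finset.mul_sum, geom_sum_eq hρ.ne'] at h3
          have h4 : (ρ ^ (n + 1 - N) - 1) / (ρ - 1) ≤ 1 / 6 * ρ ^ (n + 1) := by
            rw [div_le_iff₀ (by linarith)]
            have e1 : ρ ^ (n + 1) = ρ ^ (n + 1 - N) * ρ ^ N := by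
              rw [← pow_add]; congr 1; omega
            rw [e1]
            have h5 : ρ ^ (n + 1 - N) * 6 ≤ ρ ^ (n + 1 - N) * (ρ ^ N * (ρ - 1)) :=
              mul_le_mul_of_nonneg_left hN (by positivity)
            nlinarith
          have h6 : (3 * K + 1) * ((ρ ^ (n + 1 - N) - 1) / (ρ - 1)) ≤
              (3 * K + 1) * (1 / 6 * ρ ^ (n + 1)) := mul_le_mul_of_nonneg_left h4 (by linarith)
          linarith
      have h3 : K ≤ 1 / 3 * ((3 * K + 1) * ρ ^ (n + 1)) := by
        have h4 : (1 : ℝ) ≤ ρ ^ (n + 1) := one_le_pow₀ hρ.le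
        nlinarith
      linarith

end Pool.Agent.Lib.MP_0ad9bc_an
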