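import Mathlib
import Pool.Agent.Lib.MP_0ad9bc_an.Part5

/-!
Insertion of loops: weighted decoding and the resulting inequality between generating functions.
-/

namespace Pool.Agent.Lib.MP_0ad9bc_an

open Finset ENNReal

variable {M : ℕ} {β : Bool → ℕ → Fin (M + 1)}

open Classical in
/-- Weighted number of ways to decode `y`, after the word `g` has been read. -/
noncomputable def DD (X good : List (Fin (M + 1)) → Prop)
    (r : List (Fin (M + 1)) → List (Fin (M + 1))) (c0 : ℝ≥0∞) :
    List (Fin (M + 1)) → List (Fin (M + 1)) → ℝ≥0∞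
  | _, [] => 1
  | g, c :: y =>
    if X (g ++ [c]) then
      DD X good r c0 (g ++ [c]) y +
        (if good (g ++ [c]) ∧ r (g ++ [c]) <+: y then
          c0 * DD X good r c0 (g ++ [c]) (y.drop (r (g ++ [c])).length) else 0)
    else 0
termination_by _ y => y.length
decreasing_by
  all_goals simp


lemma DD_nil (X good : List (Fin (M + 1)) → Prop)
    (r : List (Fin (M + 1)) → List (Fin (M + 1))) (c0 : ℝ≥0∞) (g : List (Fin (M + 1))) :
    DD X good r c0 g [] = 1 := by
  rw [DD]

open Classical in
lemma DD_cons (X good : List (Fin (M + 1)) → Prop)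
    (r : List (Fin (M + 1)) → List (Fin (M + 1))) (c0 : ℝ≥0∞) (g y : List (Fin (M + 1)))
    (c : Fin (M + 1)) :
    DD X good r c0 g (c :: y) =
    if X (g ++ [c]) then
      DD X good r c0 (g ++ [c]) y +
        (if good (g ++ [c]) ∧ r (g ++ [c]) <+: y then
          c0 * DD X good r c0 (g ++ [c]) (y.drop (r (g ++ [c])).length) else 0)
    else 0 := by
  rw [DD]

/-- Data for the insertion argument. -/
structure Ins (β : Bool → ℕ → Fin (M + 1)) (X good : List (Fin (M + 1)) → Prop)
    (r : List (Fin (M + 1)) → List (Fin (M + 1))) (R : ℕ) (w : List (Fin (M + 1))) : Prop where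
  lang : ∀ u, X u → Lang β u
  infix_closed : ∀ u v, X v → u <:+: v → X u
  omits : ¬ X w
  contains : ∀ g, X g → good g → w <:+: r g
  short : ∀ g, X g → good g → (r g).length ≤ R
  back : ∀ g, X g → good g → Lang β (g ++ r g) ∧ st β (g ++ r g) = st β g

lemma Ins.bound {X good : List (Fin (M + 1)) → Prop}
    {r : List (Fin (M + 1)) → List (Fin (M + 1))} {R : ℕ} {w : List (Fin (M + 1))}
    (I : Ins β X good r R w) : ∀ n (y : List (Fin (M + 1))), y.length = n →
      (∀ g, X g → DD X good r ((R + 1 : ℕ) : ℝ≥0∞)⁻¹ g y ≤ 1) ∧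
      (∀ g (j : ℕ), X g → ¬ X (g ++ y.take j) →
        DD X good r ((R + 1 : ℕ) : ℝ≥0∞)⁻¹ g y ≤ j * ((R + 1 : ℕ) : ℝ≥0∞)⁻¹) := by
  classical
  intro n
  induction n using Nat.strong_induction_on with
  | _ n ih =>
    intro y hy
    set c0 : ℝ≥0∞ := ((R + 1 : ℕ) : ℝ≥0∞)⁻¹ with hc0
    have hfull : ((R + 1 : ℕ) : ℝ≥0∞) * c0 = 1 :=
      ENNReal.mul_inv_cancel (by simp) (by simp)
    rcases y with _ | ⟨c, y⟩
    · refine ⟨fun g _ => by rw [DD_nil], fun g j hg hj => ?_⟩
      simp at hj
      exact absurd hg hj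
    · have hlen : y.length < n := by
        rw [← hy]; simp
      obtain ⟨ih1, ih2⟩ := ih _ hlen y rfl
      have hdrop : ∀ g, X g → ∀ k, DD X good r c0 g (y.drop k) ≤ 1 := by
        intro g hg k
        exact (ih (y.drop k).length (by simp; omega) (y.drop k) rfl).1 g hg
      constructor
      · intro g hg
        rw [DD_cons]
        split_ifs with h1 h2
        · obtain ⟨h2, h3⟩ := h2
          have h4 : ¬ X (g ++ [c] ++ y.take (r (g ++ [c])).length) := by
            intro h5
            apply I.omits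
            apply I.infix_closed _ _ h5
            rw [List.prefix_iff_eq_take] at h3
            rw [← h3]
            exact (I.contains _ h1 h2).trans (List.suffix_append _ _).isInfix
          have h5 := ih2 _ _ h1 h4
          have h6 := hdrop _ h1 (r (g ++ [c])).length
          have h7 := I.short _ h1 h2
          calc DD X good r c0 (g ++ [c]) y +
                c0 * DD X good r c0 (g ++ [c]) (y.drop (r (g ++ [c])).length)
              ≤ ((r (g ++ [c])).length : ℝ≥0∞) * c0 + c0 * 1 := by gcongr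
            _ ≤ (R : ℝ≥0∞) * c0 + c0 * 1 := by gcongr
            _ = ((R + 1 : ℕ) : ℝ≥0∞) * c0 := by push_cast; ring
            _ = 1 := hfull
            _ ≤ 1 := le_rfl
        · rw [add_zero]
          exact ih1 _ h1
        · exact bot_le
      · intro g j hg hj
        rw [DD_cons]
        rcases j with _ | j
        · simp at hj
          exact absurd hg hj
        · split_ifs with h1 h2
          · have h3 : ¬ X (g ++ [c] ++ y.take j) := by
              simpa [List.append_assoc] using hj
            have h4 := ih2 _ _ h1 h3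
            have h6 := hdrop _ h1 (r (g ++ [c])).length
            calc DD X good r c0 (g ++ [c]) y +
                  c0 * DD X good r c0 (g ++ [c]) (y.drop (r (g ++ [c])).length)
                ≤ (j : ℝ≥0∞) * c0 + c0 * 1 := by gcongr
              _ = ((j + 1 : ℕ) : ℝ≥0∞) * c0 := by push_cast; ring
          · have h3 : ¬ X (g ++ [c] ++ y.take j) := by
              simpa [List.append_assoc] using hj
            have h4 := ih2 _ _ h1 h3
            rw [add_zero]
            refine h4.trans ?_
            gcongr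
            omega
          · exact bot_le

open Classical in
/-- The generating function of decodings. -/
noncomputable def BB (β : Bool → ℕ → Fin (M + 1)) (X good : List (Fin (M + 1)) → Prop)
    (r : List (Fin (M + 1)) → List (Fin (M + 1))) (c0 ζ : ℝ≥0∞) (g : List (Fin (M + 1))) : ℝ≥0∞ :=
  ∑' y : List (Fin (M + 1)), if Lang β (g ++ y) then DD X good r c0 g y * ζ ^ y.length else 0

lemma Ins.BB_ge_one {X good : List (Fin (M + 1)) → Prop}
    {r : List (Fin (M + 1)) → List (Fin (M + 1))} {c0 ζ : ℝ≥0∞}
    {g : List (Fin (M + 1))} (hg : Lang β g) : 1 ≤ BB β X good r c0 ζ g := by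
  classical
  refine le_trans ?_ (ENNReal.le_tsum [])
  simp [hg, DD_nil]

open Classical in
lemma Ins.BB_step {X good : List (Fin (M + 1)) → Prop}
    {r : List (Fin (M + 1)) → List (Fin (M + 1))} {R : ℕ} {w : List (Fin (M + 1))}
    (I : Ins β X good r R w) {c0 ζ : ℝ≥0∞} (hζ : ζ ≤ 1) (g : List (Fin (M + 1))) :
    ∑ c, (if X (g ++ [c]) then
      ζ * ((1 + (if good (g ++ [c]) then c0 * ζ ^ R else 0)) * BB β X good r c0 ζ (g ++ [c])) else 0)
      ≤ BB β X good r c0 ζ g := by
  have h1 : ∑' p : Fin (M + 1) × List (Fin (M + 1)),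
      (if Lang β (g ++ (p.1 :: p.2)) then DD X good r c0 g (p.1 :: p.2) *
        ζ ^ (p.1 :: p.2).length else 0) ≤ BB β X good r c0 ζ g := by
    have hinj : Function.Injective (fun p : Fin (M + 1) × List (Fin (M + 1)) => p.1 :: p.2) := by
      rintro ⟨a, u⟩ ⟨b, v⟩ h
      simp at h
      simp [h.1, h.2]
    exact ENNReal.tsum_comp_le_tsum_of_injective hinj
      (fun y => if Lang β (g ++ y) then DD X good r c0 g y * ζ ^ y.length else 0)
  refine le_trans ?_ h1
  rw [ENNReal.tsum_prod' , tsum_fintype]
  refine Finset.sum_le_sum fun c _ => ?_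
  by_cases hX : X (g ++ [c])
  swap
  · rw [if_neg hX]
    exact bot_le
  rw [if_pos hX]
  have e1 : ∀ y, (if Lang β (g ++ (c :: y)) then DD X good r c0 g (c :: y) *
      ζ ^ (c :: y).length else 0) =
      ζ * (if Lang β (g ++ [c] ++ y) then DD X good r c0 (g ++ [c]) y * ζ ^ y.length else 0) +
      (if Lang β (g ++ [c] ++ y) ∧ good (g ++ [c]) ∧ r (g ++ [c]) <+: y then
        ζ * (c0 * DD X good r c0 (g ++ [c]) (y.drop (r (g ++ [c])).length) * ζ ^ y.length)
        else 0) := by
    intro y
    rw [DD_cons, if_pos hX]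
    have e2 : g ++ (c :: y) = g ++ [c] ++ y := by simp
    rw [e2]
    by_cases hL : Lang β (g ++ [c] ++ y)
    · by_cases hG : good (g ++ [c]) ∧ r (g ++ [c]) <+: y
      · rw [if_pos hL, if_pos hL, if_pos hG, if_pos ⟨hL, hG⟩, List.length_cons, pow_succ]
        ring
      · rw [if_pos hL, if_pos hL, if_neg hG, if_neg (fun h => hG h.2), List.length_cons, pow_succ]
        ring
    · rw [if_neg hL, if_neg hL, if_neg (fun h => hL h.1)]
      simp
  simp only [e1]
  rw [ENNReal.tsum_add, ENNReal.tsum_mul_left]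
  have e3 : ζ * ((1 + (if good (g ++ [c]) then c0 * ζ ^ R else 0)) * BB β X good r c0 ζ (g ++ [c])) =
      ζ * BB β X good r c0 ζ (g ++ [c]) +
      ζ * ((if good (g ++ [c]) then c0 * ζ ^ R else 0) * BB β X good r c0 ζ (g ++ [c])) := by ring
  rw [e3]
  refine add_le_add (le_of_eq rfl) ?_
  split_ifs with hG
  swap
  · simp
  have hinj : Function.Injective (fun y : List (Fin (M + 1)) => r (g ++ [c]) ++ y) :=
    fun u v h => List.append_cancel_left h
  refine le_trans ?_ (ENNReal.tsum_comp_le_tsum_of_injective hinj _)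
  rw [BB, ← ENNReal.tsum_mul_left, ← ENNReal.tsum_mul_left]
  refine ENNReal.tsum_le_tsum fun y => ?_
  obtain ⟨b1, b2⟩ := I.back _ hX hG
  by_cases hL : Lang β (g ++ [c] ++ y)
  · have hL' : Lang β (g ++ [c] ++ (r (g ++ [c]) ++ y)) := by
      rw [← List.append_assoc]
      exact Lang_congr β b1 b2.symm hL
    rw [if_pos hL, if_pos ⟨hL', hG, List.prefix_append _ _⟩]
    have hdrop : (r (g ++ [c]) ++ y).drop (r (g ++ [c])).length = y := List.drop_left
    rw [hdrop, List.length_append, pow_add]
    have hpow : ζ ^ R ≤ ζ ^ (r (g ++ [c])).length := pow_le_pow_right_of_le_one' hζ (I.short _ hX hG)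
    calc ζ * (c0 * ζ ^ R * (DD X good r c0 (g ++ [c]) y * ζ ^ y.length))
        ≤ ζ * (c0 * ζ ^ (r (g ++ [c])).length * (DD X good r c0 (g ++ [c]) y * ζ ^ y.length)) := by
          gcongr
      _ = _ := by ring
  · rw [if_neg hL]
    simp

open Classical in
/-- The main inequality. -/
lemma Ins.main {X good : List (Fin (M + 1)) → Prop}
    {r : List (Fin (M + 1)) → List (Fin (M + 1))} {R : ℕ} {w : List (Fin (M + 1))}
    (I : Ins β X good r R w) {c0 ζ : ℝ≥0∞} (hζ : ζ ≤ 1) (n : ℕ) (g : List (Fin (M + 1)))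
    (hg : X g) :
    ∑ u ∈ W (Fin (M + 1)) n, (if X (g ++ u) then ζ ^ n * (1 + c0 * ζ ^ R) ^ G good g u else 0)
      ≤ BB β X good r c0 ζ g := by
  induction n generalizing g with
  | zero =>
    rw [W_zero]
    simp [hg, G]
    exact Ins.BB_ge_one (I.lang _ hg)
  | succ n ih =>
    refine le_trans ?_ (I.BB_step hζ g)
    rw [sum_W_cons]
    refine Finset.sum_le_sum fun c _ => ?_
    by_cases hX : X (g ++ [c])
    · rw [if_pos hX]
      calc ∑ u ∈ W (Fin (M + 1)) n, (if X (g ++ c :: u) then
            ζ ^ (n + 1) * (1 + c0 * ζ ^ R) ^ G good g (c :: u) else 0)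
          = ∑ u ∈ W (Fin (M + 1)) n, ζ * (1 + (if good (g ++ [c]) then c0 * ζ ^ R else 0)) *
            (if X (g ++ [c] ++ u) then ζ ^ n * (1 + c0 * ζ ^ R) ^ G good (g ++ [c]) u else 0) := by
            refine Finset.sum_congr rfl fun u _ => ?_
            have e2 : g ++ (c :: u) = g ++ [c] ++ u := by simp
            rw [e2, G_cons]
            by_cases h1 : X (g ++ [c] ++ u)
            · rw [if_pos h1, if_pos h1]
              by_cases h2 : good (g ++ [c])
              · rw [if_pos h2, if_pos h2, pow_succ ζ n, pow_add, pow_one]; ring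
              · rw [if_neg h2, if_neg h2, zero_add, pow_succ ζ n, add_zero]; ring
            · rw [if_neg h1, if_neg h1, mul_zero]
        _ = ζ * ((1 + (if good (g ++ [c]) then c0 * ζ ^ R else 0)) *
            ∑ u ∈ W (Fin (M + 1)) n,
            (if X (g ++ [c] ++ u) then ζ ^ n * (1 + c0 * ζ ^ R) ^ G good (g ++ [c]) u else 0)) := by
            rw [← Finset.mul_sum]; ring
        _ ≤ _ := by
            gcongr
            exact ih _ hX
    · rw [if_neg hX]
      refine le_of_eq (Finset.sum_eq_zero fun u _ => ?_)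
      rw [if_neg]
      intro h
      apply hX
      apply I.infix_closed _ _ h
      have e2 : g ++ (c :: u) = g ++ [c] ++ u := by simp
      rw [e2]
      exact (List.prefix_append _ _).isInfix

open Classical in
lemma Ins.total {X good : List (Fin (M + 1)) → Prop}
    {r : List (Fin (M + 1)) → List (Fin (M + 1))} {R : ℕ} {w : List (Fin (M + 1))}
    (I : Ins β X good r R w) (h0 : X []) (ζ C : ℝ≥0∞)
    (hC : ∀ T : ℕ, ∑ n ∈ range T, ∑ u ∈ W (Fin (M + 1)) n, (if Lang β u then ζ ^ n else 0) ≤ C) :
    BB β X good r ((R + 1 : ℕ) : ℝ≥0∞)⁻¹ ζ [] ≤ C := by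
  rw [BB, ENNReal.tsum_eq_iSup_sum]
  refine iSup_le fun s => ?_
  have h1 : ∀ y ∈ s, (if Lang β ([] ++ y) then DD X good r ((R + 1 : ℕ) : ℝ≥0∞)⁻¹ [] y * ζ ^ y.length
      else 0) ≤ (if Lang β y then ζ ^ y.length else 0) := by
    intro y _
    rw [List.nil_append]
    split_ifs
    · have := (I.bound y.length y rfl).1 [] h0
      calc _ ≤ 1 * ζ ^ y.length := by gcongr
        _ = _ := one_mul _
    · exact le_rfl
  refine (Finset.sum_le_sum h1).trans ?_
  set T := s.sup List.length + 1 with hT
  have hsub : s ⊆ (range T).biUnion (fun n => W (Fin (M + 1)) n) := by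
    intro y hy
    simp only [Finset.mem_biUnion, Finset.mem_range, mem_W]
    have : y.length ≤ s.sup List.length := Finset.le_sup (f := List.length) hy
    exact ⟨y.length, by omega, rfl⟩
  refine (Finset.sum_le_sum_of_subset hsub).trans ?_
  rw [Finset.sum_biUnion]
  · refine le_trans (le_of_eq ?_) (hC T)
    refine Finset.sum_congr rfl fun n _ => Finset.sum_congr rfl fun u hu => ?_
    rw [mem_W] at hu
    rw [hu]
  · intro a _ b _ hab
    refine Finset.disjoint_left.mpr fun u hu hu' => ?_
    rw [mem_W] at hu hu'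
    exact hab (hu.symm.trans hu')

end Pool.Agent.Lib.MP_0ad9bc_an
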