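import Mathlib
import Pool.Agent.Lib.MP_0ad9bc_an.Part6

/-!
The exponential gap: a proper subsystem has strictly smaller growth.
-/

namespace Pool.Agent.Lib.MP_0ad9bc_an

open Finset Filter Topology

variable {M : ℕ} {β : Bool → ℕ → Fin (M + 1)}

open Classical in
/-- Number of words of length `n` with a property. -/
noncomputable def cnt (P : List (Fin (M + 1)) → Prop) (n : ℕ) : ℕ :=
  ((W (Fin (M + 1)) n).filter P).card

open Classical in
lemma Ins.real {X good : List (Fin (M + 1)) → Prop}
    {r : List (Fin (M + 1)) → List (Fin (M + 1))} {R : ℕ} {w : List (Fin (M + 1))}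
    (I : Ins β X good r R w) (h0 : X []) {z C : ℝ} (hz0 : 0 ≤ z) (hz1 : z ≤ 1)
    (hC : ∀ T : ℕ, ∑ n ∈ range T, (cnt (Lang β) n : ℝ) * z ^ n ≤ C) (n : ℕ) :
    ∑ u ∈ W (Fin (M + 1)) n,
      (if X u then z ^ n * (1 + z ^ R / (R + 1)) ^ G good [] u else 0) ≤ C := by
  have hC0 : 0 ≤ C := by simpa using hC 0
  have h1 := I.main (c0 := ((R + 1 : ℕ) : ENNReal)⁻¹) (ζ := ENNReal.ofReal z)
    (by simpa using hz1) n [] h0
  have h2 := I.total h0 (ENNReal.ofReal z) (ENNReal.ofReal C) (by
    intro T
    have h3 : ∀ n, ∑ u ∈ W (Fin (M + 1)) n, (if Lang β u then (ENNReal.ofReal z) ^ n else 0) =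
        ENNReal.ofReal ((cnt (Lang β) n : ℝ) * z ^ n) := by
      intro n
      rw [← Finset.sum_filter, Finset.sum_const, nsmul_eq_mul, ENNReal.ofReal_mul (by positivity),
        ENNReal.ofReal_pow hz0, cnt, ENNReal.ofReal_natCast]
    simp only [h3]
    rw [← ENNReal.ofReal_sum_of_nonneg]
    · exact ENNReal.ofReal_le_ofReal (hC T)
    · intro i _; positivity)
  have h3 := h1.trans h2
  have h4 : (1 + ((R + 1 : ℕ) : ENNReal)⁻¹ * ENNReal.ofReal z ^ R) =
      ENNReal.ofReal (1 + z ^ R / (R + 1)) := by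
    rw [ENNReal.ofReal_add (by norm_num) (by positivity), ENNReal.ofReal_one,
      ENNReal.ofReal_div_of_pos (by positivity), ENNReal.ofReal_pow hz0, ENNReal.div_eq_inv_mul]
    congr 3
    have : ((R : ℝ) + 1) = ((R + 1 : ℕ) : ℝ) := by push_cast; ring
    rw [this, ENNReal.ofReal_natCast]
  rw [h4] at h3
  have h5 : ∑ u ∈ W (Fin (M + 1)) n, (if X ([] ++ u) then ENNReal.ofReal z ^ n *
      ENNReal.ofReal (1 + z ^ R / (R + 1)) ^ G good [] u else 0) =
      ENNReal.ofReal (∑ u ∈ W (Fin (M + 1)) n,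
      (if X u then z ^ n * (1 + z ^ R / (R + 1)) ^ G good [] u else 0)) := by
    rw [ENNReal.ofReal_sum_of_nonneg]
    · refine Finset.sum_congr rfl fun u _ => ?_
      rw [List.nil_append]
      split_ifs
      · rw [ENNReal.ofReal_mul (by positivity), ENNReal.ofReal_pow hz0,
          ENNReal.ofReal_pow (by positivity)]
      · simp
    · intro u _
      split_ifs
      · positivity
      · exact le_rfl
  rw [h5] at h3
  exact (ENNReal.ofReal_le_ofReal_iff hC0).mp h3

/-- Bounded generating function below the radius of convergence. -/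
lemma genfun_bounded {a : ℕ → ℝ} (ha : ∀ n, 1 ≤ a n) {h s : ℝ} (hs : 0 < s)
    (hlim : Tendsto (fun n : ℕ => Real.log (a n) / n) atTop (𝓝 h)) :
    ∃ C : ℝ, 0 ≤ C ∧ ∀ T : ℕ, ∑ n ∈ range T, a n * Real.exp (-(h + s)) ^ n ≤ C := by
  have h1 : ∀ᶠ n : ℕ in atTop, Real.log (a n) / n < h + s / 2 :=
    hlim.eventually_lt_const (by linarith)
  obtain ⟨n0, hn0⟩ := (h1.and (eventually_ge_atTop 1)).exists_forall_of_atTop
  set q := Real.exp (-(s / 2)) with hq
  have hq0 : 0 < q := Real.exp_pos _
  have hq1 : q < 1 := by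
    rw [hq, Real.exp_lt_one_iff]; linarith
  have hterm : ∀ n, n0 ≤ n → a n * Real.exp (-(h + s)) ^ n ≤ q ^ n := by
    intro n hn
    obtain ⟨h2, h3⟩ := hn0 n hn
    have hnpos : (0 : ℝ) < n := by exact_mod_cast h3
    rw [div_lt_iff₀ hnpos] at h2
    have h4 : a n ≤ Real.exp ((h + s / 2) * n) := by
      rw [← Real.log_le_iff_le_exp (by linarith [ha n])]
      exact h2.le
    have h5 : q ^ n = Real.exp ((h + s / 2) * n) * Real.exp (-(h + s)) ^ n := by
      rw [hq, ← Real.exp_nat_mul, ← Real.exp_nat_mul, ← Real.exp_add]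
      congr 1; ring
    rw [h5]
    exact mul_le_mul_of_nonneg_right h4 (by positivity)
  have hpos : ∀ n, 0 ≤ a n * Real.exp (-(h + s)) ^ n := by
    intro n
    have := ha n
    positivity
  refine ⟨∑ n ∈ range n0, a n * Real.exp (-(h + s)) ^ n + (1 - q)⁻¹, ?_, fun T => ?_⟩
  · have h6 : 0 ≤ (1 - q)⁻¹ := by
      rw [inv_nonneg]; linarith
    have := Finset.sum_nonneg (s := range n0) (f := fun n => a n * Real.exp (-(h + s)) ^ n)
      (fun n _ => hpos n)
    linarith
  · have h7 : ∑ n ∈ range T, a n * Real.exp (-(h + s)) ^ n ≤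
        ∑ n ∈ range (n0 + T), a n * Real.exp (-(h + s)) ^ n :=
      Finset.sum_le_sum_of_subset_of_nonneg (Finset.range_subset_range.mpr (by omega))
        (fun n _ _ => hpos n)
    refine h7.trans ?_
    rw [Finset.sum_range_add]
    gcongr
    have h8 : ∑ x ∈ range T, a (n0 + x) * Real.exp (-(h + s)) ^ (n0 + x) ≤
        ∑ x ∈ range T, q ^ x := by
      refine Finset.sum_le_sum fun x _ => (hterm _ (by omega)).trans ?_
      exact pow_le_pow_of_le_one hq0.le hq1.le (by omega)
    refine h8.trans ?_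
    rw [← tsum_geometric_of_lt_one hq0.le hq1]
    exact (summable_geometric_of_lt_one hq0.le hq1).sum_le_tsum _ (fun i _ => by positivity)

/-- Existence of the data needed for the insertion argument. -/
lemma exists_ins (H : Good β) (hT : Trans β) {m : ℕ} (hm : MaxCut β m)
    {X : List (Fin (M + 1)) → Prop} (hX : Sub β X) {w : List (Fin (M + 1))} (hw : Lang β w)
    (hXw : ¬ X w) (N : ℕ) :
    ∃ r R, Ins β X (fun u => m ≤ idx β u ∧ idx β u ≤ N) r R w := by
  have h1 : ∀ ε k, ∃ r, m ≤ k → Loop β ε k r ∧ w <:+: r := by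
    intro ε k
    by_cases hk : m ≤ k
    · obtain ⟨r, hr⟩ := hm.loop H hT ε hk hw
      exact ⟨r, fun _ => hr⟩
    · exact ⟨[], fun h => absurd h hk⟩
  choose rr hrr using h1
  have h2 : ∀ g : List (Fin (M + 1)), ∃ ε, st β g = pre β ε (idx β g) := fun g => st_eq_pre β
  choose e he using h2
  refine ⟨fun g => rr (e g) (idx β g),
    (range (N + 1)).sup (fun k => max (rr true k).length (rr false k).length), ?_⟩
  refine ⟨hX.lang, hX.infix_closed, hXw, ?_, ?_, ?_⟩
  · rintro g _ ⟨h3, h4⟩
    exact (hrr _ _ h3).2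
  · rintro g _ ⟨h3, h4⟩
    have h5 : max (rr true (idx β g)).length (rr false (idx β g)).length ≤
        (range (N + 1)).sup (fun k => max (rr true k).length (rr false k).length) :=
      Finset.le_sup (f := fun k => max (rr true k).length (rr false k).length)
        (Finset.mem_range.mpr (by omega))
    refine le_trans ?_ h5
    cases e g
    · exact le_max_right _ _
    · exact le_max_left _ _
  · rintro g hg ⟨h3, h4⟩
    exact (hrr _ _ h3).1.use (hX.lang g hg) (he g)

theorem gap (H : Good β) (hT : Trans β) {m : ℕ} (hm : MaxCut β m)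
    {X : List (Fin (M + 1)) → Prop} (hX : Sub β X) {w : List (Fin (M + 1))} (hw : Lang β w)
    (hXw : ¬ X w) {h : ℝ} (hh : 0 < h)
    (hlim : Tendsto (fun n : ℕ => Real.log (cnt (Lang β) n) / n) atTop (𝓝 h)) :
    ∃ κ C : ℝ, 0 < κ ∧ 0 < C ∧ ∀ n : ℕ, (cnt X n : ℝ) ≤ C * Real.exp ((h - κ) * n) := by
  classical
  -- constants of the first part
  set ρ := Real.exp (h / 2) with hρ
  have hρ1 : 1 < ρ := by rw [hρ, Real.one_lt_exp_iff]; linarith
  obtain ⟨N, hN⟩ := ((tendsto_pow_atTop_atTop_of_one_lt hρ1).eventually_ge_atTop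
    (6 / (ρ - 1))).exists
  rw [div_le_iff₀ (by linarith)] at hN
  set good : List (Fin (M + 1)) → Prop := fun u => m ≤ idx β u ∧ idx β u ≤ N with hgood
  set t := Real.log (3 * (M + 1)) with ht
  have hM : (0 : ℝ) ≤ M := Nat.cast_nonneg _
  have ht0 : 0 < t := Real.log_pos (by linarith)
  set θ := Real.exp (-t) with hθ
  have hθ' : θ = 1 / (3 * (M + 1)) := by
    rw [hθ, Real.exp_neg, ht, Real.exp_log (by positivity), one_div]
  have hθ0 : 0 ≤ θ := (Real.exp_pos _).le
  have hθ1 : θ ≤ 1 := by rw [hθ, Real.exp_le_one_iff]; linarith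
  have hgrow : ∀ n, SS β good θ n ≤ (3 * ((M + 1) ^ (2 * m) : ℕ) + 1) * ρ ^ n := by
    intro n
    apply growth (A := (M : ℝ) + 1) (N := N) (θ := θ) (fun n => SS_nonneg good hθ0 n)
      (SS_zero good θ).le (by positivity) (fun n => SS_succ H hT hm.cut N hθ0 hθ1 n) hρ1 hN
    rw [hθ']
    apply le_of_eq
    field_simp
  -- insertion data
  obtain ⟨r, R, I⟩ := exists_ins H hT hm hX hw hXw N
  have hXnil : X [] := by
    obtain ⟨u, hu, -⟩ := hX.long 0
    exact hX.infix_closed _ _ hu (by simp)
  set δ := min 1 (h / (4 * t)) with hδ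
  have hδ0 : 0 < δ := by rw [hδ]; apply lt_min <;> positivity
  have hδt : t * δ ≤ h / 4 := by
    have : δ ≤ h / (4 * t) := min_le_right _ _
    calc t * δ ≤ t * (h / (4 * t)) := by gcongr
      _ = h / 4 := by field_simp
  set η := Real.exp (-(h + 1)) ^ R / (R + 1) with hη
  have hη0 : 0 < η := by positivity
  set l := Real.log (1 + η) with hl
  have hl0 : 0 < l := Real.log_pos (by linarith)
  have hlexp : Real.exp l = 1 + η := Real.exp_log (by linarith)
  set s := min 1 (l * δ / 2) with hs
  have hs0 : 0 < s := by rw [hs]; apply lt_min <;> positivity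
  have hs1 : s ≤ 1 := min_le_left _ _
  have hs2 : s ≤ l * δ / 2 := min_le_right _ _
  have hcnt1 : ∀ n, (1 : ℝ) ≤ cnt (Lang β) n := by
    intro n
    have : 0 < cnt (Lang β) n := by
      rw [cnt, Finset.card_pos]
      exact ⟨pre β true n, by simp [H.lang]⟩
    exact_mod_cast this
  obtain ⟨C2, hC20, hC2⟩ := genfun_bounded hcnt1 hs0 hlim
  have hz1 : Real.exp (-(h + s)) ≤ 1 := by rw [Real.exp_le_one_iff]; linarith
  have hins := I.real hXnil (z := Real.exp (-(h + s))) (C := C2) (Real.exp_pos _).le hz1 hC2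
  -- the two estimates
  set K := (3 * ((M + 1) ^ (2 * m) : ℕ) + 1 : ℝ) with hK
  have hKpos : 0 < K := by positivity
  have hA : ∀ n : ℕ, (((W (Fin (M + 1)) n).filter
      (fun u => X u ∧ (G good [] u : ℝ) ≤ δ * n)).card : ℝ) ≤ K * Real.exp (3 * h / 4 * n) := by
    intro n
    have h1 : (((W (Fin (M + 1)) n).filter
      (fun u => X u ∧ (G good [] u : ℝ) ≤ δ * n)).card : ℝ) * Real.exp (-(t * (δ * n))) ≤
      SS β good θ n := by
      rw [SS_eq, ← nsmul_eq_mul, ← Finset.sum_const, ← Finset.sum_filter]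
      calc ∑ u ∈ (W (Fin (M + 1)) n).filter (fun u => X u ∧ (G good [] u : ℝ) ≤ δ * n),
            Real.exp (-(t * (δ * n)))
          ≤ ∑ u ∈ (W (Fin (M + 1)) n).filter (fun u => X u ∧ (G good [] u : ℝ) ≤ δ * n),
            θ ^ G good [] u := by
            refine Finset.sum_le_sum fun u hu => ?_
            rw [Finset.mem_filter] at hu
            rw [hθ, ← Real.exp_nat_mul]
            apply Real.exp_le_exp.mpr
            have := mul_le_mul_of_nonneg_left hu.2.2 ht0.le
            linarith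
        _ ≤ _ := by
            apply Finset.sum_le_sum_of_subset_of_nonneg
            · intro u hu
              rw [Finset.mem_filter] at hu ⊢
              exact ⟨hu.1, hX.lang u hu.2.1⟩
            · intro u _ _
              positivity
    have h2 := h1.trans (hgrow n)
    have h3 : (((W (Fin (M + 1)) n).filter
      (fun u => X u ∧ (G good [] u : ℝ) ≤ δ * n)).card : ℝ) ≤
      K * ρ ^ n * Real.exp (t * (δ * n)) := by
      have h4 : Real.exp (-(t * (δ * n))) * Real.exp (t * (δ * n)) = 1 := by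
        rw [← Real.exp_add]; simp
      have h5 := mul_le_mul_of_nonneg_right h2 (Real.exp_pos (t * (δ * n))).le
      rw [mul_assoc, h4, mul_one] at h5
      exact h5
    refine h3.trans ?_
    rw [mul_assoc]
    apply mul_le_mul_of_nonneg_left _ hKpos.le
    rw [hρ, ← Real.exp_nat_mul, ← Real.exp_add]
    apply Real.exp_le_exp.mpr
    have h6 : t * (δ * n) ≤ h / 4 * n := by
      rw [← mul_assoc]; gcongr
    linarith
  have hB : ∀ n : ℕ, (((W (Fin (M + 1)) n).filter
      (fun u => X u ∧ ¬ (G good [] u : ℝ) ≤ δ * n)).card : ℝ) ≤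
      C2 * Real.exp ((h - l * δ / 2) * n) := by
    intro n
    have h1 : (((W (Fin (M + 1)) n).filter
      (fun u => X u ∧ ¬ (G good [] u : ℝ) ≤ δ * n)).card : ℝ) *
      (Real.exp (-(h + s)) ^ n * Real.exp (l * (δ * n))) ≤ C2 := by
      refine le_trans ?_ (hins n)
      rw [← nsmul_eq_mul, ← Finset.sum_const, ← Finset.sum_filter]
      calc ∑ u ∈ (W (Fin (M + 1)) n).filter (fun u => X u ∧ ¬ (G good [] u : ℝ) ≤ δ * n),
            (Real.exp (-(h + s)) ^ n * Real.exp (l * (δ * n)))
          ≤ ∑ u ∈ (W (Fin (M + 1)) n).filter (fun u => X u ∧ ¬ (G good [] u : ℝ) ≤ δ * n),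
            (Real.exp (-(h + s)) ^ n *
              (1 + Real.exp (-(h + s)) ^ R / (R + 1)) ^ G good [] u) := by
            refine Finset.sum_le_sum fun u hu => ?_
            rw [Finset.mem_filter] at hu
            apply mul_le_mul_of_nonneg_left _ (by positivity)
            have h2 : (1 + η) ^ G good [] u ≤
                (1 + Real.exp (-(h + s)) ^ R / (R + 1)) ^ G good [] u := by
              rw [hη]
              gcongr
            refine le_trans ?_ h2
            rw [← hlexp, ← Real.exp_nat_mul]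
            apply Real.exp_le_exp.mpr
            have := mul_le_mul_of_nonneg_left (not_le.mp hu.2.2).le hl0.le
            linarith
        _ ≤ _ := by
            apply Finset.sum_le_sum_of_subset_of_nonneg
            · intro u hu
              rw [Finset.mem_filter] at hu ⊢
              exact ⟨hu.1, hu.2.1⟩
            · intro u _ _
              positivity
    have h3 : Real.exp (-(h + s)) ^ n * Real.exp (l * (δ * n)) *
        Real.exp ((h + s) * n - l * (δ * n)) = 1 := by
      rw [← Real.exp_nat_mul, ← Real.exp_add, ← Real.exp_add, Real.exp_eq_one_iff]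
      ring
    have h4 := mul_le_mul_of_nonneg_right h1 (Real.exp_pos ((h + s) * n - l * (δ * n))).le
    rw [mul_assoc, h3, mul_one] at h4
    refine h4.trans ?_
    apply mul_le_mul_of_nonneg_left _ hC20
    apply Real.exp_le_exp.mpr
    have h5 : s * n ≤ l * δ / 2 * n := by gcongr
    linarith
  refine ⟨min (h / 4) (l * δ / 2), K + C2, ?_, by linarith, fun n => ?_⟩
  · apply lt_min <;> positivity
  · have h1 : (cnt X n : ℝ) = (((W (Fin (M + 1)) n).filter
      (fun u => X u ∧ (G good [] u : ℝ) ≤ δ * n)).card : ℝ) + (((W (Fin (M + 1)) n).filter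
      (fun u => X u ∧ ¬ (G good [] u : ℝ) ≤ δ * n)).card : ℝ) := by
      rw [cnt, ← Nat.cast_add, ← Finset.card_filter_add_card_filter_not
        (s := (W (Fin (M + 1)) n).filter X) (fun u => (G good [] u : ℝ) ≤ δ * n),
        Finset.filter_filter, Finset.filter_filter]
    rw [h1, add_mul]
    have h2 : K * Real.exp (3 * h / 4 * n) ≤ K * Real.exp ((h - min (h / 4) (l * δ / 2)) * n) := by
      apply mul_le_mul_of_nonneg_left _ hKpos.le
      apply Real.exp_le_exp.mpr
      apply mul_le_mul_of_nonneg_right _ (Nat.cast_nonneg _)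
      have := min_le_left (h / 4) (l * δ / 2)
      linarith
    have h3 : C2 * Real.exp ((h - l * δ / 2) * n) ≤
        C2 * Real.exp ((h - min (h / 4) (l * δ / 2)) * n) := by
      apply mul_le_mul_of_nonneg_left _ hC20
      apply Real.exp_le_exp.mpr
      apply mul_le_mul_of_nonneg_right _ (Nat.cast_nonneg _)
      have := min_le_right (h / 4) (l * δ / 2)
      linarith
    exact add_le_add ((hA n).trans h2) ((hB n).trans h3)

end Pool.Agent.Lib.MP_0ad9bc_an
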