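import Mathlib
import Pool.Agent.Lib.MP_0ad9bc_an.Part7

/-!
Positivity of the growth rate, existence of limits, and the final comparison for languages.
-/

namespace Pool.Agent.Lib.MP_0ad9bc_an

open Finset Filter Topology

variable {M : ℕ} {β : Bool → ℕ → Fin (M + 1)}

lemma cnt_sum (P : List (Fin (M + 1)) → Prop) [DecidablePred P] (n : ℕ) :
    cnt P n = ∑ u ∈ W (Fin (M + 1)) n, if P u then 1 else 0 := by
  classical
  rw [cnt, Finset.card_filter]
  refine Finset.sum_congr rfl fun u _ => ?_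
  by_cases h : P u <;> simp [h]

lemma cnt_mono {P Q : List (Fin (M + 1)) → Prop} (h : ∀ u, P u → Q u) (n : ℕ) :
    cnt P n ≤ cnt Q n := by
  classical
  rw [cnt, cnt]
  apply Finset.card_le_card
  intro u hu
  rw [Finset.mem_filter] at hu ⊢
  exact ⟨hu.1, h u hu.2⟩

lemma cnt_add_le {P : List (Fin (M + 1)) → Prop} (hP : ∀ u v, P v → u <:+: v → P u) (a b : ℕ) :
    cnt P (a + b) ≤ cnt P a * cnt P b := by
  classical
  rw [cnt_sum, cnt_sum, cnt_sum, sum_W_add, Finset.sum_mul_sum]
  refine Finset.sum_le_sum fun u _ => Finset.sum_le_sum fun v _ => ?_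
  by_cases h : P (u ++ v)
  · have h1 : P u := hP _ _ h (List.prefix_append _ _).isInfix
    have h2 : P v := hP _ _ h (List.suffix_append _ _).isInfix
    simp [h, h1, h2]
  · simp [h]

lemma exists_limit {P : List (Fin (M + 1)) → Prop} (hP : ∀ u v, P v → u <:+: v → P u)
    (hpos : ∀ n, ∃ u, P u ∧ u.length = n) :
    ∃ h : ℝ, Tendsto (fun n : ℕ => Real.log (cnt P n) / n) atTop (𝓝 h) := by
  classical
  have h1 : ∀ n, 1 ≤ cnt P n := by
    intro n
    obtain ⟨u, hu, hl⟩ := hpos n
    rw [cnt, Nat.one_le_iff_ne_zero, Finset.card_ne_zero]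
    exact ⟨u, by simp [hu, hl]⟩
  have h1' : ∀ n, (1 : ℝ) ≤ cnt P n := fun n => by exact_mod_cast h1 n
  have hsub : Subadditive (fun n : ℕ => Real.log (cnt P n)) := by
    intro a b
    have h2 : (cnt P (a + b) : ℝ) ≤ cnt P a * cnt P b := by exact_mod_cast cnt_add_le hP a b
    calc Real.log (cnt P (a + b)) ≤ Real.log ((cnt P a : ℝ) * cnt P b) :=
          Real.log_le_log (by linarith [h1' (a + b)]) h2
      _ = _ := Real.log_mul (by linarith [h1' a]) (by linarith [h1' b])
  refine ⟨hsub.lim, hsub.tendsto_lim ⟨0, ?_⟩⟩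
  rintro _ ⟨n, rfl⟩
  exact div_nonneg (Real.log_nonneg (h1' n)) (Nat.cast_nonneg _)

/-- Two loops which do not commute give exponentially many words. -/
lemma double {m : ℕ} {a b : List (Fin (M + 1))} (H : Good β) (ha : Loop β true m a)
    (hb : Loop β true m b) (hab : a ++ b ≠ b ++ a) (k : ℕ) :
    2 ^ k ≤ cnt (fun u => Lang β u ∧ st β u = pre β true m) (m + k * (a.length + b.length)) := by
  classical
  induction k with
  | zero =>
    rw [pow_zero, Nat.one_le_iff_ne_zero, cnt, Finset.card_ne_zero]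
    exact ⟨pre β true m, by simp [H.lang, st_pre]⟩
  | succ k ih =>
    set P := a.length + b.length with hP
    have e1 : m + (k + 1) * P = (m + k * P) + P := by ring
    rw [e1, cnt_sum, sum_W_add, pow_succ]
    rw [cnt_sum] at ih
    refine (Nat.mul_le_mul_right 2 ih).trans ?_
    rw [Finset.sum_mul]
    refine Finset.sum_le_sum fun u _ => ?_
    by_cases hu : Lang β u ∧ st β u = pre β true m
    · rw [if_pos hu, one_mul]
      have hsub : ({a ++ b, b ++ a} : Finset (List (Fin (M + 1)))) ⊆ W (Fin (M + 1)) P := by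
        intro v hv
        rw [Finset.mem_insert, Finset.mem_singleton] at hv
        rcases hv with rfl | rfl
        · simp [hP]
        · simp [hP, Nat.add_comm]
      refine le_trans ?_ (Finset.sum_le_sum_of_subset hsub)
      rw [Finset.sum_pair hab]
      obtain ⟨h1, h2⟩ := ha.use hu.1 hu.2
      obtain ⟨h3, h4⟩ := hb.use h1 (by rw [h2, hu.2])
      obtain ⟨h5, h6⟩ := hb.use hu.1 hu.2
      obtain ⟨h7, h8⟩ := ha.use h5 (by rw [h6, hu.2])
      rw [List.append_assoc] at h3 h4 h7 h8
      rw [if_pos ⟨h3, by rw [h4, h2, hu.2]⟩, if_pos ⟨h7, by rw [h8, h6, hu.2]⟩]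
    · rw [if_neg hu, zero_mul]
      exact Nat.zero_le _

lemma entropy_pos {m : ℕ} {a b : List (Fin (M + 1))} (H : Good β) (ha : Loop β true m a)
    (hb : Loop β true m b) (hab : a ++ b ≠ b ++ a) {h : ℝ}
    (hlim : Tendsto (fun n : ℕ => Real.log (cnt (Lang β) n) / n) atTop (𝓝 h)) : 0 < h := by
  set P := a.length + b.length with hP
  have hPpos : 0 < P := by
    by_contra hcon
    have h1 : a.length = 0 := by omega
    have h2 : b.length = 0 := by omega
    rw [List.length_eq_zero_iff] at h1 h2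
    subst h1 h2
    exact hab rfl
  have hPm : (0 : ℝ) < (P : ℝ) + m := by positivity
  have hlog2 : 0 < Real.log 2 := Real.log_pos (by norm_num)
  have hsubseq : Tendsto (fun k : ℕ => m + (k + 1) * P) atTop atTop := by
    apply tendsto_atTop_mono (f := fun k : ℕ => k) _ tendsto_id
    intro k
    show k ≤ m + (k + 1) * P
    nlinarith
  have h1 := hlim.comp hsubseq
  have h2 : Real.log 2 / (P + m) ≤ h := by
    apply ge_of_tendsto' h1
    intro k
    simp only [Function.comp]
    have h3 : (2 : ℝ) ^ (k + 1) ≤ cnt (Lang β) (m + (k + 1) * P) := by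
      have h4 := (double H ha hb hab (k + 1)).trans (cnt_mono (fun u hu => hu.1) _)
      exact_mod_cast h4
    have h5 : (k + 1 : ℕ) * Real.log 2 ≤ Real.log (cnt (Lang β) (m + (k + 1) * P)) := by
      rw [← Real.log_pow]
      exact Real.log_le_log (by positivity) h3
    rw [div_le_div_iff₀ hPm (by positivity)]
    push_cast at h5 ⊢
    have h6 : Real.log 2 * (m + (k + 1) * P) ≤ ((k + 1) * Real.log 2) * (P + m) := by
      have h7 : (0 : ℝ) ≤ (k : ℝ) * (Real.log 2 * m) := by positivity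
      nlinarith
    refine h6.trans ?_
    exact mul_le_mul_of_nonneg_right h5 hPm.le
  exact lt_of_lt_of_le (by positivity) h2

lemma exists_maxCut (h : ¬ ∀ n, ∃ m, n ≤ m ∧ Cut β m) : ∃ m, MaxCut β m := by
  classical
  push Not at h
  obtain ⟨n, hn⟩ := h
  refine ⟨Nat.findGreatest (Cut β) n, ?_, fun k hk hc => ?_⟩
  · exact Nat.findGreatest_spec (P := Cut β) (Nat.zero_le n) (Cut_zero β)
  · rcases Nat.lt_or_ge k n with h1 | h1
    · have := Nat.le_findGreatest h1.le hc
      omega
    · exact hn k h1 hc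

/-- Main comparison theorem for languages. -/
theorem compare (H : Good β) (hT : Trans β) {X : List (Fin (M + 1)) → Prop} (hX : Sub β X)
    {w : List (Fin (M + 1))} (hw : Lang β w) (hXw : ¬ X w) :
    ∃ hX hL : ℝ, Tendsto (fun n : ℕ => Real.log (cnt X n) / n) atTop (𝓝 hX) ∧
      Tendsto (fun n : ℕ => Real.log (cnt (Lang β) n) / n) atTop (𝓝 hL) ∧ hX < hL := by
  classical
  obtain ⟨h1, hh1⟩ := exists_limit hX.infix_closed hX.long
  obtain ⟨h2, hh2⟩ := exists_limit (P := Lang β) (fun u v hv huv => Lang_of_infix β hv huv)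
    (fun n => ⟨pre β true n, H.lang _ _, by simp⟩)
  refine ⟨h1, h2, hh1, hh2, ?_⟩
  have hw0 : w ≠ [] := by
    rintro rfl
    obtain ⟨u, hu, -⟩ := hX.long 0
    exact hXw (hX.infix_closed _ _ hu (by simp))
  by_cases hc : ∀ n, ∃ m, n ≤ m ∧ Cut β m
  · exact absurd (hX.all_of_cuts H hT hc hw) hXw
  obtain ⟨m, hm⟩ := exists_maxCut hc
  by_cases hcomm : ∀ r r', Loop β true m r → Loop β true m r' → r ++ r' = r' ++ r
  · exact absurd (hX.all_of_commute H hT hm hcomm hw hw0) hXw
  push Not at hcomm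
  obtain ⟨a, b, ha, hb, hab⟩ := hcomm
  have hpos := entropy_pos H ha hb hab hh2
  obtain ⟨κ, C, hκ, hC, hbound⟩ := gap H hT hm hX hw hXw hpos hh2
  have h3 : h1 ≤ 0 + (h2 - κ) := by
    have hlimC : Tendsto (fun n : ℕ => Real.log C / n + (h2 - κ)) atTop (𝓝 (0 + (h2 - κ))) :=
      (tendsto_const_div_atTop_nhds_zero_nat _).add tendsto_const_nhds
    apply le_of_tendsto_of_tendsto hh1 hlimC
    filter_upwards [eventually_ge_atTop 1] with n hn
    have hn0 : (0 : ℝ) < n := by exact_mod_cast hn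
    have h4 : 0 < cnt X n := by
      obtain ⟨u, hu, hl⟩ := hX.long n
      rw [cnt, Finset.card_pos]
      exact ⟨u, by simp [hu, hl]⟩
    have h5 : Real.log (cnt X n) ≤ Real.log C + (h2 - κ) * n := by
      have h6 := Real.log_le_log (by exact_mod_cast h4) (hbound n)
      rwa [Real.log_mul hC.ne' (Real.exp_pos _).ne', Real.log_exp] at h6
    rw [div_le_iff₀ hn0, add_mul, div_mul_cancel₀ _ hn0.ne']
    exact h5
  linarith

end Pool.Agent.Lib.MP_0ad9bc_an
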